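import Pool.Agent.Helper97.GP.E3b

open Finset
open scoped Classical

namespace GPG

noncomputable section

variable {L : LS} {P : Par} {pb : ℝ}

theorem e3_Ex_mul (n : ℕ) (F : Finset ℕ → ℝ) (c : ℝ) :
    Ex L P n F * c = Ex L P n (fun C => F C * c) := by
  unfold Ex
  rw [Finset.sum_mul]
  exact Finset.sum_congr rfl fun C _ => by ring

theorem e3_Ex_sum {α : Type*} (n : ℕ) (S : Finset α) (F : α → Finset ℕ → ℝ)
    (Z : Finset ℕ → ℝ) :
    Ex L P n (fun C => Z C * ∑ f ∈ S, F f C) = ∑ f ∈ S, Ex L P n (fun C => Z C * F f C) := by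
  unfold Ex
  rw [Finset.sum_comm]
  refine Finset.sum_congr rfl fun C _ => ?_
  show wt L P n C * (Z C * ∑ f ∈ S, F f C) = ∑ x ∈ S, wt L P n C * (Z C * F x C)
  rw [Finset.mul_sum, Finset.mul_sum]

/-- the relation of having a long pair -/
def e3R (L : LS) (S0 v : ℕ) (q q' : ℕ × ℕ) : Prop :=
  (L.Lng S0 v q'.1 q.1 ∨ L.Lng S0 v q'.1 q.2) ∨ (L.Lng S0 v q'.2 q.1 ∨ L.Lng S0 v q'.2 q.2)

theorem e3_term (hG : Good L P pb) (v : ℕ) (hv : v < L.N) (S0 : ℕ)
    (hS0 : (1 / (1 - pb)) ^ S0 ≤ 1 + P.e1) (k : ℕ) (f : Fin k → ℕ × ℕ)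
    (hf : ∀ l, f l ∈ L.Pv v) (hD : e3D L v k f) :
    Ex L P v (fun C => (run L P C v).Z v * ∏ l, e3w L P v C (f l)) ≤
      (1 + P.e1) ^ ((2 * k) ^ 2) *
        (∏ l, P.lam (f l).1 * P.lam (f l).2) *
        (1 + if (∃ p j, p ≠ j ∧ e3R L S0 v (f p) (f j)) then P.E4 ^ ((2 * k) ^ 2) else 0) := by
  classical
  set X : Finset ℕ := Finset.univ.image (fun l => (f l).1) with hXdef
  set Y : Finset ℕ := Finset.univ.image (fun l => (f l).2) with hYdef
  have hq := fun l => e3_mem_Pv (hf l)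
  have hinj1 : Function.Injective (fun l => (f l).1) := by
    intro a b hab
    by_contra hne
    obtain ⟨i, hi, _, hvi, h1, h2⟩ := (hq a).2.2.2
    exact hD a b hne ⟨i, hi, hvi, Or.inl h1, Or.inl (by simpa [← show (f a).1 = (f b).1 from hab] using h1)⟩
  have hinj2 : Function.Injective (fun l => (f l).2) := by
    intro a b hab
    by_contra hne
    obtain ⟨i, hi, _, hvi, h1, h2⟩ := (hq a).2.2.2
    exact hD a b hne ⟨i, hi, hvi, Or.inl h1, Or.inr (by simpa [← show (f a).2 = (f b).2 from hab] using h2)⟩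
  have hXY : Disjoint X Y := by
    rw [Finset.disjoint_left]
    intro s hs hs'
    rw [hXdef, Finset.mem_image] at hs
    rw [hYdef, Finset.mem_image] at hs'
    obtain ⟨a, _, ha⟩ := hs
    obtain ⟨b, _, hb⟩ := hs'
    by_cases hab : a = b
    · subst hab
      have := (hq a).2.2.1
      omega
    · obtain ⟨i, hi, _, hvi, h1, h2⟩ := (hq a).2.2.2
      exact hD a b hab ⟨i, hi, hvi, Or.inl h1, Or.inr (by rw [hb, ← ha]; exact h1)⟩
  have hXv : ∀ s ∈ X ∪ Y, s < v := by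
    intro s hs
    rw [Finset.mem_union, hXdef, hYdef, Finset.mem_image, Finset.mem_image] at hs
    rcases hs with ⟨a, _, ha⟩ | ⟨a, _, ha⟩
    · have := (hq a).1; omega
    · have := (hq a).2.1; omega
  have hcardX : X.card = k := by
    rw [hXdef, Finset.card_image_of_injective _ hinj1, Finset.card_univ, Fintype.card_fin]
  have hcardY : Y.card = k := by
    rw [hYdef, Finset.card_image_of_injective _ hinj2, Finset.card_univ, Fintype.card_fin]
  have hcard : (X ∪ Y).card = 2 * k := by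
    rw [Finset.card_union_of_disjoint hXY, hcardX, hcardY]; ring
  have hPLU := PLU hG v hv.le X Y hXY hXv S0 hS0
  have hfun : (fun C => (run L P C v).Z v * ∏ l, e3w L P v C (f l)) =
      (fun C => if (∀ s ∈ X ∪ Y, s < tau L P v C) then
        (run L P C v).Z v * (∏ s ∈ X, (if s ∈ C then 1 else 0) / (run L P C s).On v s) *
          ∏ s ∈ Y, pr L P C s / (run L P C s).On v s else 0) := by
    funext C
    by_cases h : ∀ s ∈ X ∪ Y, s < tau L P v C
    · rw [if_pos h]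
      rw [hXdef, hYdef, Finset.prod_image (fun a _ b _ hab => hinj1 hab),
        Finset.prod_image (fun a _ b _ hab => hinj2 hab), mul_assoc, ← Finset.prod_mul_distrib]
      congr 1
      refine Finset.prod_congr rfl fun l _ => ?_
      have h1 : (f l).1 < tau L P v C := h _ (Finset.mem_union_left _
        (by rw [hXdef]; exact Finset.mem_image_of_mem _ (Finset.mem_univ l)))
      have h2 : (f l).2 < tau L P v C := h _ (Finset.mem_union_right _
        (by rw [hYdef]; exact Finset.mem_image_of_mem _ (Finset.mem_univ l)))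
      unfold e3w
      by_cases hc : (f l).1 ∈ C
      · rw [if_pos ⟨hc, h1, h2⟩, if_pos hc]
        ring
      · rw [if_neg (fun h => hc h.1), if_neg hc]
        ring
    · rw [if_neg h]
      push Not at h
      obtain ⟨s, hs, hst⟩ := h
      rw [Finset.mem_union, hXdef, hYdef, Finset.mem_image, Finset.mem_image] at hs
      have : ∃ l, e3w L P v C (f l) = 0 := by
        rcases hs with ⟨a, _, ha⟩ | ⟨a, _, ha⟩
        · refine ⟨a, ?_⟩
          unfold e3w
          rw [if_neg]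
          rintro ⟨_, h1, _⟩
          omega
        · refine ⟨a, ?_⟩
          unfold e3w
          rw [if_neg]
          rintro ⟨_, _, h1⟩
          omega
      obtain ⟨l, hl⟩ := this
      rw [Finset.prod_eq_zero (Finset.mem_univ l) hl, mul_zero]
  rw [hfun]
  refine hPLU.trans ?_
  rw [hcard]
  have hlam : ∏ s ∈ X ∪ Y, P.lam s = ∏ l, P.lam (f l).1 * P.lam (f l).2 := by
    rw [Finset.prod_union hXY, hXdef, hYdef, Finset.prod_image (fun a _ b _ hab => hinj1 hab),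
        Finset.prod_image (fun a _ b _ hab => hinj2 hab), ← Finset.prod_mul_distrib]
  rw [hlam]
  have hlam0 : 0 ≤ ∏ l, P.lam (f l).1 * P.lam (f l).2 :=
    Finset.prod_nonneg fun l _ => mul_nonneg (hG.lam0 _) (hG.lam0 _)
  have he : 0 ≤ (1 + P.e1) ^ ((2 * k) ^ 2) := pow_nonneg (by linarith [hG.e10]) _
  have hbd : ∏ q ∈ prs (X ∪ Y), bd L P S0 v q.1 q.2 ≤
      1 + if (∃ p j, p ≠ j ∧ e3R L S0 v (f p) (f j)) then P.E4 ^ ((2 * k) ^ 2) else 0 := by
    by_cases hlong : ∃ p j, p ≠ j ∧ e3R L S0 v (f p) (f j)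
    · rw [if_pos hlong]
      have h1 : ∏ q ∈ prs (X ∪ Y), bd L P S0 v q.1 q.2 ≤ ∏ q ∈ prs (X ∪ Y), P.E4 := by
        refine Finset.prod_le_prod (fun q _ => ?_) fun q _ => ?_
        · unfold bd
          split_ifs
          · linarith [hG.E41]
          · norm_num
        · unfold bd
          split_ifs
          · exact le_rfl
          · exact hG.E41
      rw [Finset.prod_const] at h1
      have h2 : (prs (X ∪ Y)).card ≤ (2 * k) ^ 2 := by
        unfold prs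
        refine (Finset.card_filter_le _ _).trans ?_
        rw [Finset.card_product, hcard]
        exact le_of_eq (by ring)
      have h3 : P.E4 ^ (prs (X ∪ Y)).card ≤ P.E4 ^ ((2 * k) ^ 2) :=
        pow_le_pow_right₀ hG.E41 h2
      linarith
    · rw [if_neg hlong, add_zero]
      refine le_of_eq (Finset.prod_eq_one fun q hqm => ?_)
      unfold bd
      rw [if_neg]
      intro hL
      unfold prs at hqm
      rw [Finset.mem_filter, Finset.mem_product] at hqm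
      obtain ⟨⟨hm1, hm2⟩, hlt⟩ := hqm
      have hs1 : ∃ a, q.1 = (f a).1 ∨ q.1 = (f a).2 := by
        rw [Finset.mem_union, hXdef, hYdef, Finset.mem_image, Finset.mem_image] at hm1
        rcases hm1 with ⟨a, _, ha⟩ | ⟨a, _, ha⟩
        · exact ⟨a, Or.inl ha.symm⟩
        · exact ⟨a, Or.inr ha.symm⟩
      have hs2 : ∃ a, q.2 = (f a).1 ∨ q.2 = (f a).2 := by
        rw [Finset.mem_union, hXdef, hYdef, Finset.mem_image, Finset.mem_image] at hm2
        rcases hm2 with ⟨a, _, ha⟩ | ⟨a, _, ha⟩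
        · exact ⟨a, Or.inl ha.symm⟩
        · exact ⟨a, Or.inr ha.symm⟩
      obtain ⟨a, ha⟩ := hs1
      obtain ⟨b, hb⟩ := hs2
      by_cases hab : a = b
      · subst hab
        obtain ⟨i, hi, _, hvi, h1, h2⟩ := (hq a).2.2.2
        obtain ⟨j, hj, hj1, hj2, hvj, _⟩ := hL
        have hi1 : q.1 ∈ i := by rcases ha with h | h <;> rw [h] <;> assumption
        have hi2 : q.2 ∈ i := by rcases hb with h | h <;> rw [h] <;> assumption
        have : i = j := L.uniq i hi j hj q.1 q.2 (by omega) hi1 hi2 hj1 hj2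
        exact hvj (this ▸ hvi)
      · apply hlong
        refine ⟨b, a, Ne.symm hab, ?_⟩
        unfold e3R
        rcases ha with h | h <;> rcases hb with h' | h' <;> rw [h, h'] at hL
        · exact Or.inl (Or.inl hL)
        · exact Or.inl (Or.inr hL)
        · exact Or.inr (Or.inl hL)
        · exact Or.inr (Or.inr hL)
  calc (1 + P.e1) ^ ((2 * k) ^ 2) * (∏ q ∈ prs (X ∪ Y), bd L P S0 v q.1 q.2) *
        ∏ l, P.lam (f l).1 * P.lam (f l).2
      = (1 + P.e1) ^ ((2 * k) ^ 2) * (∏ l, P.lam (f l).1 * P.lam (f l).2) *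
        (∏ q ∈ prs (X ∪ Y), bd L P S0 v q.1 q.2) := by ring
    _ ≤ _ := mul_le_mul_of_nonneg_left hbd (mul_nonneg he hlam0)

theorem E3 (hG : Good L P pb) (v : ℕ) (hv : v < L.N) (S0 : ℕ)
    (hS0 : (1 / (1 - pb)) ^ S0 ≤ 1 + P.e1) (k : ℕ) (hk : 1 ≤ k) (A μ ξ : ℝ)
    (hA : (k : ℝ) ^ 2 ≤ A) (hξ0 : 0 ≤ ξ)
    (hμ : ∑ q ∈ L.Pv v, P.lam q.1 * P.lam q.2 ≤ μ)
    (hξ : ∀ s < L.N, s ≠ v →
      ∑ q ∈ (L.Pv v).filter (fun q => L.Lng S0 v s q.1 ∨ L.Lng S0 v s q.2),
        P.lam q.1 * P.lam q.2 ≤ ξ) :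
    Ex L P v (fun C => if A ≤ ∑ i ∈ L.ls.filter (fun i => v ∈ i ∧ ¬ L.pre i), At L P v i C
        then (run L P C v).Z v else 0) * (A ^ k * (1 - (k : ℝ) ^ 2 / A)) ≤
      (1 + P.e1) ^ ((2 * k) ^ 2) * (μ ^ k +
        P.E4 ^ ((2 * k) ^ 2) * (2 * (k : ℝ) ^ 2 * μ ^ (k - 1) * ξ)) := by
  classical
  set Lv := L.ls.filter (fun i => v ∈ i ∧ ¬ L.pre i) with hLv
  set FS := (Fintype.piFinset (fun _ : Fin k => L.Pv v)).filter (e3D L v k) with hFS
  have hk1 : (1 : ℝ) ≤ (k : ℝ) := by exact_mod_cast hk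
  have hA1 : 1 ≤ A := by nlinarith
  have hA0 : 0 < A := by linarith
  have hAt0 : ∀ C (i : {i // i ∈ Lv}), 0 ≤ At L P v i C := fun C i => At_nonneg hG v _ C
  have hAt1 : ∀ C (i : {i // i ∈ Lv}), At L P v i C ≤ 1 := fun C i => by
    have := Finset.mem_filter.mp i.2
    exact (At_lt_one hG v _ C this.1 this.2.1).le
  have hstep1 : Ex L P v (fun C => if A ≤ ∑ i ∈ Lv, At L P v i C
        then (run L P C v).Z v else 0) * (A ^ k * (1 - (k : ℝ) ^ 2 / A)) ≤
      Ex L P v (fun C => (run L P C v).Z v * ∑ f ∈ FS, ∏ l, e3w L P v C (f l)) := by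
    rw [e3_Ex_mul]
    refine Ex_mono hG v _ _ fun C _ _ => ?_
    have hZ := Z_nonneg hG C v v
    have hS0' : 0 ≤ ∑ f ∈ FS, ∏ l, e3w L P v C (f l) :=
      Finset.sum_nonneg fun f _ => Finset.prod_nonneg fun l _ => e3w_nonneg hG v C _
    by_cases h : A ≤ ∑ i ∈ Lv, At L P v i C
    · rw [if_pos h]
      refine mul_le_mul_of_nonneg_left ?_ hZ
      have h1 := e3_pow (fun i : {i // i ∈ Lv} => At L P v i C) (hAt0 C) (hAt1 C) k hk
        (fun g => Function.Injective g) (fun g hg => hg)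
      have h2 := e3_ek_le hG v k C
      have h3 : ∑ i : {i // i ∈ Lv}, At L P v i C = ∑ i ∈ Lv, At L P v i C :=
        Finset.sum_coe_sort Lv (fun i => At L P v i C)
      rw [h3] at h1
      set Xs := ∑ i ∈ Lv, At L P v i C with hXs
      have h4 : A ^ k * (1 - (k : ℝ) ^ 2 / A) = A ^ (k - 1) * (A - (k : ℝ) ^ 2) := by
        obtain ⟨n, rfl⟩ : ∃ n, k = n + 1 := ⟨k - 1, by omega⟩
        rw [Nat.add_sub_cancel, pow_succ]
        field_simp
      rw [h4]
      have h5 : A ^ (k - 1) * (A - (k : ℝ) ^ 2) ≤ Xs ^ (k - 1) * (Xs - (k : ℝ) ^ 2) := by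
        have h6 : A ^ (k - 1) ≤ Xs ^ (k - 1) := pow_le_pow_left₀ hA0.le h _
        have h7 : 0 ≤ A ^ (k - 1) := pow_nonneg hA0.le _
        have h8 : 0 ≤ A - (k : ℝ) ^ 2 := by linarith
        calc A ^ (k - 1) * (A - (k : ℝ) ^ 2) ≤ Xs ^ (k - 1) * (A - (k : ℝ) ^ 2) :=
              mul_le_mul_of_nonneg_right h6 h8
          _ ≤ _ := mul_le_mul_of_nonneg_left (by linarith) (h7.trans h6)
      have h9 : Xs ^ k = Xs ^ (k - 1) * Xs := by
        obtain ⟨n, rfl⟩ : ∃ n, k = n + 1 := ⟨k - 1, by omega⟩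
        rw [Nat.add_sub_cancel, pow_succ]
      have h10 : Xs ^ (k - 1) * (Xs - (k : ℝ) ^ 2) = Xs ^ k - (k : ℝ) ^ 2 * Xs ^ (k - 1) := by
        rw [h9]; ring
      linarith
    · rw [if_neg h, zero_mul]
      exact mul_nonneg hZ hS0'
  refine hstep1.trans ?_
  rw [e3_Ex_sum v FS (fun f C => ∏ l, e3w L P v C (f l)) (fun C => (run L P C v).Z v)]
  set a : {q // q ∈ L.Pv v} → ℝ := fun q => P.lam q.1.1 * P.lam q.1.2 with ha
  have ha0 : ∀ q, 0 ≤ a q := fun q => mul_nonneg (hG.lam0 _) (hG.lam0 _)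
  have hE4 : 0 ≤ P.E4 ^ ((2 * k) ^ 2) := pow_nonneg (by linarith [hG.E41]) _
  have he : 0 ≤ (1 + P.e1) ^ ((2 * k) ^ 2) := pow_nonneg (by linarith [hG.e10]) _
  have hterm : ∀ f ∈ FS, Ex L P v (fun C => (run L P C v).Z v * ∏ l, e3w L P v C (f l)) ≤
      (1 + P.e1) ^ ((2 * k) ^ 2) *
        ((∏ l, P.lam (f l).1 * P.lam (f l).2) + P.E4 ^ ((2 * k) ^ 2) *
          (if (∃ p j, p ≠ j ∧ e3R L S0 v (f p) (f j)) then
            ∏ l, P.lam (f l).1 * P.lam (f l).2 else 0)) := by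
    intro f hf
    rw [hFS, Finset.mem_filter, Fintype.mem_piFinset] at hf
    refine (e3_term hG v hv S0 hS0 k f hf.1 hf.2).trans (le_of_eq ?_)
    split_ifs <;> ring
  refine (Finset.sum_le_sum hterm).trans ?_
  have hnn : ∀ f : Fin k → ℕ × ℕ, 0 ≤ (1 + P.e1) ^ ((2 * k) ^ 2) *
        ((∏ l, P.lam (f l).1 * P.lam (f l).2) + P.E4 ^ ((2 * k) ^ 2) *
          (if (∃ p j, p ≠ j ∧ e3R L S0 v (f p) (f j)) then
            ∏ l, P.lam (f l).1 * P.lam (f l).2 else 0)) := by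
    intro f
    have h1 : 0 ≤ ∏ l, P.lam (f l).1 * P.lam (f l).2 :=
      Finset.prod_nonneg fun l _ => mul_nonneg (hG.lam0 _) (hG.lam0 _)
    refine mul_nonneg he (add_nonneg h1 (mul_nonneg hE4 ?_))
    split_ifs
    · exact h1
    · exact le_rfl
  refine (Finset.sum_le_sum_of_subset_of_nonneg (Finset.filter_subset _ _)
    fun f _ _ => hnn f).trans ?_
  rw [e3_sum_pi_coe, ← Finset.mul_sum, Finset.sum_add_distrib, ← Finset.mul_sum]
  refine mul_le_mul_of_nonneg_left ?_ he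
  have hsum : ∑ q : {q // q ∈ L.Pv v}, a q ≤ μ := by
    rw [ha, Finset.sum_coe_sort (L.Pv v) (fun q => P.lam q.1 * P.lam q.2)]
    exact hμ
  have hμ0 : 0 ≤ μ := (Finset.sum_nonneg fun q _ => ha0 q).trans hsum
  have h1 : ∑ g : Fin k → {q // q ∈ L.Pv v}, ∏ l, P.lam (g l).1.1 * P.lam (g l).1.2 ≤ μ ^ k := by
    have h3 : ∑ h : Fin k → {q // q ∈ L.Pv v}, ∏ l, a (h l) = (∑ i, a i) ^ k := by
      have := Finset.prod_univ_sum
        (fun _ : Fin k => (Finset.univ : Finset {q // q ∈ L.Pv v})) (fun _ i => a i)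
      rw [Finset.prod_const, Finset.card_univ, Fintype.card_fin, Fintype.piFinset_univ] at this
      rw [this]
    rw [show (∑ g : Fin k → {q // q ∈ L.Pv v}, ∏ l, P.lam (g l).1.1 * P.lam (g l).1.2) =
      ∑ h : Fin k → {q // q ∈ L.Pv v}, ∏ l, a (h l) from rfl, h3]
    exact pow_le_pow_left₀ (Finset.sum_nonneg fun q _ => ha0 q) hsum k
  have h2 : ∑ g : Fin k → {q // q ∈ L.Pv v},
      (if (∃ p j, p ≠ j ∧ e3R L S0 v (g p).1 (g j).1) then
        ∏ l, P.lam (g l).1.1 * P.lam (g l).1.2 else 0) ≤ (k : ℝ) ^ 2 * (2 * ξ * μ ^ (k - 1)) := by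
    refine e3_union a ha0 (fun x y => e3R L S0 v x.1 y.1) (2 * ξ) μ hsum ?_ (by linarith) k hk
      (fun g => ∃ p j, p ≠ j ∧ e3R L S0 v (g p).1 (g j).1) (fun g hg => hg)
    intro y
    have hy := e3_mem_Pv y.2
    have hb1 := hξ y.1.1 (by omega) (by omega)
    have hb2 := hξ y.1.2 (by omega) (by omega)
    have hsplit : ∑ x : {q // q ∈ L.Pv v}, (if e3R L S0 v x.1 y.1 then a x else 0) ≤
        (∑ x : {q // q ∈ L.Pv v},
          (if L.Lng S0 v y.1.1 x.1.1 ∨ L.Lng S0 v y.1.1 x.1.2 then a x else 0)) +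
        ∑ x : {q // q ∈ L.Pv v},
          (if L.Lng S0 v y.1.2 x.1.1 ∨ L.Lng S0 v y.1.2 x.1.2 then a x else 0) := by
      rw [← Finset.sum_add_distrib]
      refine Finset.sum_le_sum fun x _ => ?_
      have hax := ha0 x
      unfold e3R
      by_cases c1 : L.Lng S0 v y.1.1 x.1.1 ∨ L.Lng S0 v y.1.1 x.1.2 <;>
        by_cases c2 : L.Lng S0 v y.1.2 x.1.1 ∨ L.Lng S0 v y.1.2 x.1.2 <;>
        simp [c1, c2, hax]
    refine hsplit.trans ?_
    have hc1 : (∑ x : {q // q ∈ L.Pv v},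
          (if L.Lng S0 v y.1.1 x.1.1 ∨ L.Lng S0 v y.1.1 x.1.2 then a x else 0)) =
        ∑ q ∈ (L.Pv v).filter (fun q => L.Lng S0 v y.1.1 q.1 ∨ L.Lng S0 v y.1.1 q.2),
        P.lam q.1 * P.lam q.2 := by
      rw [Finset.sum_filter, ← Finset.sum_coe_sort (L.Pv v)]
    have hc2 : (∑ x : {q // q ∈ L.Pv v},
          (if L.Lng S0 v y.1.2 x.1.1 ∨ L.Lng S0 v y.1.2 x.1.2 then a x else 0)) =
        ∑ q ∈ (L.Pv v).filter (fun q => L.Lng S0 v y.1.2 q.1 ∨ L.Lng S0 v y.1.2 q.2),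
        P.lam q.1 * P.lam q.2 := by
      rw [Finset.sum_filter, ← Finset.sum_coe_sort (L.Pv v)]
    rw [hc1, hc2]
    linarith
  refine add_le_add h1 (mul_le_mul_of_nonneg_left (h2.trans (le_of_eq (by ring))) hE4)

end

end GPG
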