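import Mathlib

open Finset

namespace GPG

/-- functions into a finite set, as functions into the subtype -/
theorem e3_sum_pi_coe {α : Type*} [DecidableEq α] (S : Finset α) (k : ℕ)
    (F : (Fin k → α) → ℝ) :
    ∑ f ∈ Fintype.piFinset (fun _ : Fin k => S), F f =
      ∑ g : Fin k → {x // x ∈ S}, F (fun i => (g i : α)) := by
  symm
  refine Finset.sum_bij (fun g _ => fun i => (g i : α)) ?_ ?_ ?_ ?_
  · intro g _
    rw [Fintype.mem_piFinset]
    intro i
    exact (g i).2
  · intro g _ g' _ h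
    funext i
    exact Subtype.ext (congrFun h i)
  · intro f hf
    rw [Fintype.mem_piFinset] at hf
    exact ⟨fun i => ⟨f i, hf i⟩, Finset.mem_univ _, rfl⟩
  · intro g _
    rfl

theorem e3_pair {ι : Type*} [Fintype ι] (a : ι → ℝ) (ha : ∀ i, 0 ≤ a i)
    (R : ι → ι → Prop) [DecidableRel R] (ξ μ : ℝ) (hμ : ∑ i, a i ≤ μ)
    (hR : ∀ y, ∑ x, (if R x y then a x else 0) ≤ ξ) (hξ : 0 ≤ ξ) (n : ℕ)
    (p j : Fin (n + 1)) (hpj : j ≠ p) :
    ∑ g : Fin (n + 1) → ι, (if R (g p) (g j) then ∏ l, a (g l) else 0) ≤ ξ * μ ^ n := by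
  obtain ⟨j', rfl⟩ := Fin.exists_succAbove_eq hpj
  have h1 : ∑ g : Fin (n + 1) → ι,
      (if R (g p) (g (p.succAbove j')) then ∏ l, a (g l) else 0) =
      ∑ q : ι × (Fin n → ι), (if R q.1 (q.2 j') then a q.1 * ∏ l, a (q.2 l) else 0) := by
    symm
    refine Fintype.sum_equiv (Fin.insertNthEquiv (fun _ => ι) p) _ _ ?_
    intro q
    have e1 : (Fin.insertNthEquiv (fun _ => ι) p) q p = q.1 := by
      simp [Fin.insertNthEquiv]
    have e2 : ∀ l, (Fin.insertNthEquiv (fun _ => ι) p) q (p.succAbove l) = q.2 l := by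
      intro l
      simp [Fin.insertNthEquiv]
    rw [e1, e2, Fin.prod_univ_succAbove _ p, e1]
    simp only [e2]
  rw [h1, Fintype.sum_prod_type_right]
  have h2 : ∀ h : Fin n → ι, ∑ x, (if R x (h j') then a x * ∏ l, a (h l) else 0) ≤
      ξ * ∏ l, a (h l) := by
    intro h
    have : ∑ x, (if R x (h j') then a x * ∏ l, a (h l) else 0) =
        (∑ x, (if R x (h j') then a x else 0)) * ∏ l, a (h l) := by
      rw [Finset.sum_mul]
      refine Finset.sum_congr rfl fun x _ => ?_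
      split_ifs <;> simp
    rw [this]
    exact mul_le_mul_of_nonneg_right (hR _) (Finset.prod_nonneg fun l _ => ha _)
  refine (Finset.sum_le_sum fun h _ => h2 h).trans ?_
  rw [← Finset.mul_sum]
  refine mul_le_mul_of_nonneg_left ?_ hξ
  have h3 : ∑ h : Fin n → ι, ∏ l, a (h l) = (∑ i, a i) ^ n := by
    have := Finset.prod_univ_sum (fun _ : Fin n => (Finset.univ : Finset ι)) (fun _ i => a i)
    rw [Finset.prod_const, Finset.card_univ, Fintype.card_fin, Fintype.piFinset_univ] at this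
    rw [this]
  rw [h3]
  exact pow_le_pow_left₀ (Finset.sum_nonneg fun i _ => ha i) hμ n

theorem e3_union {ι : Type*} [Fintype ι] (a : ι → ℝ) (ha : ∀ i, 0 ≤ a i)
    (R : ι → ι → Prop) [DecidableRel R] (ξ μ : ℝ) (hμ : ∑ i, a i ≤ μ)
    (hR : ∀ y, ∑ x, (if R x y then a x else 0) ≤ ξ) (hξ : 0 ≤ ξ) (k : ℕ) (hk : 1 ≤ k)
    (P : (Fin k → ι) → Prop) [DecidablePred P]
    (hP : ∀ g, P g → ∃ p j, p ≠ j ∧ R (g p) (g j)) :
    ∑ g : Fin k → ι, (if P g then ∏ l, a (g l) else 0) ≤ (k : ℝ) ^ 2 * (ξ * μ ^ (k - 1)) := by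
  obtain ⟨n, rfl⟩ : ∃ n, k = n + 1 := ⟨k - 1, by omega⟩
  have hμ0 : 0 ≤ μ := (Finset.sum_nonneg fun i _ => ha i).trans hμ
  have h1 : ∀ g : Fin (n + 1) → ι, (if P g then ∏ l, a (g l) else 0) ≤
      ∑ p : Fin (n + 1), ∑ j : Fin (n + 1),
        (if p ≠ j ∧ R (g p) (g j) then ∏ l, a (g l) else 0) := by
    intro g
    have hnn : 0 ≤ ∏ l, a (g l) := Finset.prod_nonneg fun l _ => ha _
    have hterm : ∀ p j : Fin (n + 1),
        0 ≤ (if p ≠ j ∧ R (g p) (g j) then ∏ l, a (g l) else 0) := by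
      intro p j
      split_ifs
      · exact hnn
      · exact le_rfl
    by_cases h : P g
    · obtain ⟨p, j, hpj⟩ := hP g h
      rw [if_pos h]
      calc ∏ l, a (g l) = (if p ≠ j ∧ R (g p) (g j) then ∏ l, a (g l) else 0) := by
            rw [if_pos hpj]
        _ ≤ ∑ j : Fin (n + 1), (if p ≠ j ∧ R (g p) (g j) then ∏ l, a (g l) else 0) :=
            Finset.single_le_sum (f := fun j => (if p ≠ j ∧ R (g p) (g j) then ∏ l, a (g l) else 0))
              (fun j _ => hterm p j) (Finset.mem_univ j)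
        _ ≤ _ := Finset.single_le_sum
              (f := fun p => ∑ j : Fin (n + 1), (if p ≠ j ∧ R (g p) (g j) then ∏ l, a (g l) else 0))
              (fun p _ => Finset.sum_nonneg fun j _ => hterm p j) (Finset.mem_univ p)
    · rw [if_neg h]
      exact Finset.sum_nonneg fun p _ => Finset.sum_nonneg fun j _ => hterm p j
  refine (Finset.sum_le_sum fun g _ => h1 g).trans ?_
  rw [Finset.sum_comm]
  have h2 : ∀ p : Fin (n + 1), ∑ g : Fin (n + 1) → ι, ∑ j : Fin (n + 1),
        (if p ≠ j ∧ R (g p) (g j) then ∏ l, a (g l) else 0) ≤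
      ((n + 1 : ℕ) : ℝ) * (ξ * μ ^ n) := by
    intro p
    rw [Finset.sum_comm]
    have h3 : ∀ j : Fin (n + 1), ∑ g : Fin (n + 1) → ι,
        (if p ≠ j ∧ R (g p) (g j) then ∏ l, a (g l) else 0) ≤ ξ * μ ^ n := by
      intro j
      by_cases hpj : j = p
      · subst hpj
        simp only [ne_eq, not_true_eq_false, false_and, if_false, Finset.sum_const_zero]
        exact mul_nonneg hξ (pow_nonneg hμ0 _)
      · have := e3_pair a ha R ξ μ hμ hR hξ n p j hpj
        refine le_trans (le_of_eq ?_) this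
        refine Finset.sum_congr rfl fun g _ => ?_
        have : p ≠ j := fun h => hpj h.symm
        simp [this]
    calc _ ≤ ∑ j : Fin (n + 1), ξ * μ ^ n := Finset.sum_le_sum fun j _ => h3 j
      _ = _ := by rw [Finset.sum_const, Finset.card_univ, Fintype.card_fin, nsmul_eq_mul]
  calc _ ≤ ∑ p : Fin (n + 1), ((n + 1 : ℕ) : ℝ) * (ξ * μ ^ n) :=
        Finset.sum_le_sum fun p _ => h2 p
    _ = _ := by
      rw [Finset.sum_const, Finset.card_univ, Fintype.card_fin, nsmul_eq_mul]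
      simp only [Nat.add_sub_cancel]
      ring

/-- `X ^ k ≤ e_k + k^2 X^{k-1}` -/
theorem e3_pow {ι : Type*} [Fintype ι] (a : ι → ℝ) (ha : ∀ i, 0 ≤ a i) (ha1 : ∀ i, a i ≤ 1)
    (k : ℕ) (hk : 1 ≤ k) (D : (Fin k → ι) → Prop) [DecidablePred D]
    (hD : ∀ g, Function.Injective g → D g) :
    (∑ i, a i) ^ k ≤ (∑ g : Fin k → ι, if D g then ∏ l, a (g l) else 0) +
      (k : ℝ) ^ 2 * (∑ i, a i) ^ (k - 1) := by
  classical
  have h3 : ∑ h : Fin k → ι, ∏ l, a (h l) = (∑ i, a i) ^ k := by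
    have := Finset.prod_univ_sum (fun _ : Fin k => (Finset.univ : Finset ι)) (fun _ i => a i)
    rw [Finset.prod_const, Finset.card_univ, Fintype.card_fin, Fintype.piFinset_univ] at this
    rw [this]
  have h4 := e3_union a ha (fun x y => x = y) 1 (∑ i, a i) le_rfl
    (fun y => by
      rw [Finset.sum_ite_eq' Finset.univ y a]
      simpa using ha1 y) zero_le_one k hk (fun g => ¬ D g)
    (fun g hg => by
      have : ¬ Function.Injective g := fun h => hg (hD g h)
      rw [Function.Injective] at this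
      push Not at this
      obtain ⟨p, j, h1, h2⟩ := this
      exact ⟨p, j, h2, h1⟩)
  rw [one_mul] at h4
  rw [← h3]
  have h5 : ∑ h : Fin k → ι, ∏ l, a (h l) =
      (∑ g : Fin k → ι, if D g then ∏ l, a (g l) else 0) +
      ∑ g : Fin k → ι, (if ¬ D g then ∏ l, a (g l) else 0) := by
    rw [← Finset.sum_add_distrib]
    refine Finset.sum_congr rfl fun g _ => ?_
    by_cases h : D g <;> simp [h]
  rw [h5]
  exact add_le_add le_rfl h4

end GPG
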