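import Pool.Agent.Helper96.GP.Basics
import Pool.Agent.Helper99.GP.PLU
import Pool.Agent.Helper23.GP.A6
import Pool.Agent.Helper97.GP.E3a

open Finset
open scoped Classical

namespace GPG

noncomputable section

variable {L : LS} {P : Par} {pb : ℝ}

/-- the factor of a pair -/
def e3w (L : LS) (P : Par) (v : ℕ) (C : Finset ℕ) (q : ℕ × ℕ) : ℝ :=
  if q.1 ∈ C ∧ q.1 < tau L P v C ∧ q.2 < tau L P v C then
    ((run L P C q.1).On v q.1)⁻¹ * (pr L P C q.2 / (run L P C q.2).On v q.2) else 0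

theorem e3w_nonneg (hG : Good L P pb) (v : ℕ) (C : Finset ℕ) (q : ℕ × ℕ) :
    0 ≤ e3w L P v C q := by
  unfold e3w
  split_ifs
  · have h1 := On_one_le hG C q.1 v q.1
    have h2 := On_one_le hG C q.2 v q.2
    have h3 := pr_nonneg hG C q.2
    positivity
  · exact le_rfl

theorem e3_On_first (v x : ℕ) (hvx : v ≠ x) (i C : Finset ℕ) (hi : i ∈ L.ls) (hv : v ∈ i)
    (hx : x ∈ i) (hp : ¬ L.pre i) (hmin : ∀ y ∈ C, y ∈ i → x ≤ y) (t : ℕ) (ht : t ≤ x) :
    (run L P C t).On v x = 1 := by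
  induction t with
  | zero => rfl
  | succ t ih =>
    have ht' : t < x := ht
    have ih' := ih ht'.le
    show stepOn L P C t (run L P C t) v x = 1
    unfold stepOn
    rw [if_neg]
    · exact ih'
    · rintro ⟨h1, h2, h3, h4, h5⟩
      obtain ⟨j', hj', htj', hvj', hxj'⟩ := h5
      have e1 : j' = i := L.uniq j' hj' i hi v x hvx hvj' hxj' hv hx
      subst e1
      obtain ⟨j, hj, htj, hxj, hact⟩ := h4
      have e2 : j = j' := L.uniq j hj j' hi t x (by omega) htj hxj htj' hx
      subst e2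
      rcases hact with h | ⟨y, hyC, hyt, hyj⟩
      · exact hp h
      · have := hmin y hyC hyj
        omega

/-- the pairs on the line `i` -/
def e3F (L : LS) (v : ℕ) (i : Finset ℕ) : Finset (ℕ × ℕ) :=
  (L.Pv v).filter (fun q => q.1 ∈ i ∧ q.2 ∈ i)

theorem e3_At_le (hG : Good L P pb) (v : ℕ) (C i : Finset ℕ) (hi : i ∈ L.ls) (hv : v ∈ i)
    (hp : ¬ L.pre i) : At L P v i C ≤ ∑ q ∈ e3F L v i, e3w L P v C q := by
  classical
  unfold At
  by_cases hne : (C ∩ i).Nonempty
  · set x0 := (C ∩ i).min' hne with hx0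
    have hx0m : x0 ∈ C ∩ i := Finset.min'_mem _ _
    rw [Finset.mem_inter] at hx0m
    have hmin : ∀ y ∈ C, y ∈ i → x0 ≤ y := fun y hy hyi =>
      Finset.min'_le _ _ (Finset.mem_inter.mpr ⟨hy, hyi⟩)
    have htv : tau L P v C ≤ v := tau_le v C
    have hkey : ∀ z ∈ i.filter (fun z => z < tau L P v C ∧ L.Act C i z),
        pr L P C z / (run L P C z).On v z = e3w L P v C (x0, z) ∧ (x0, z) ∈ e3F L v i := by
      intro z hz
      rw [Finset.mem_filter] at hz
      obtain ⟨hzi, hzt, hact⟩ := hz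
      rcases hact with h | ⟨y, hyC, hyz, hyi⟩
      · exact absurd h hp
      · have hxy := hmin y hyC hyi
        have hxz : x0 < z := lt_of_le_of_lt hxy hyz
        have hxt : x0 < tau L P v C := hxz.trans hzt
        have hxv : v ≠ x0 := by omega
        constructor
        · unfold e3w
          rw [if_pos ⟨hx0m.1, hxt, hzt⟩]
          have : (run L P C x0).On v x0 = 1 :=
            e3_On_first v x0 hxv i C hi hv hx0m.2 hp hmin x0 le_rfl
          simp only [this, inv_one, one_mul]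
        · unfold e3F LS.Pv
          rw [Finset.mem_filter, Finset.mem_filter, Finset.mem_product, Finset.mem_range,
            Finset.mem_range]
          refine ⟨⟨⟨by show x0 < v; omega, by show z < v; omega⟩, hxz, i, hi, hp, hv, hx0m.2, hzi⟩,
            hx0m.2, hzi⟩
    calc ∑ z ∈ i.filter (fun z => z < tau L P v C ∧ L.Act C i z),
          pr L P C z / (run L P C z).On v z
        = ∑ z ∈ i.filter (fun z => z < tau L P v C ∧ L.Act C i z), e3w L P v C (x0, z) :=
          Finset.sum_congr rfl fun z hz => (hkey z hz).1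
      _ = ∑ q ∈ (i.filter (fun z => z < tau L P v C ∧ L.Act C i z)).image (fun z => (x0, z)),
            e3w L P v C q := by
          rw [Finset.sum_image]
          intro a _ b _ hab
          exact (Prod.ext_iff.mp hab).2
      _ ≤ _ := by
          refine Finset.sum_le_sum_of_subset_of_nonneg ?_ fun q _ _ => e3w_nonneg hG v C q
          intro q hq
          rw [Finset.mem_image] at hq
          obtain ⟨z, hz, rfl⟩ := hq
          exact (hkey z hz).2
  · have : i.filter (fun z => z < tau L P v C ∧ L.Act C i z) = ∅ := by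
      rw [Finset.filter_eq_empty_iff]
      rintro z hz ⟨_, hact⟩
      rcases hact with h | ⟨y, hyC, hyz, hyi⟩
      · exact hp h
      · exact hne ⟨y, Finset.mem_inter.mpr ⟨hyC, hyi⟩⟩
    rw [this, Finset.sum_empty]
    exact Finset.sum_nonneg fun q _ => e3w_nonneg hG v C q

/-- tuples of pairs on different lines -/
def e3D (L : LS) (v k : ℕ) (f : Fin k → ℕ × ℕ) : Prop :=
  ∀ a b, a ≠ b → ¬ ∃ i ∈ L.ls, v ∈ i ∧ ((f a).1 ∈ i ∨ (f a).2 ∈ i) ∧ ((f b).1 ∈ i ∨ (f b).2 ∈ i)

theorem e3_mem_Pv {v : ℕ} {q : ℕ × ℕ} (h : q ∈ L.Pv v) :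
    q.1 < v ∧ q.2 < v ∧ q.1 < q.2 ∧ ∃ i ∈ L.ls, ¬ L.pre i ∧ v ∈ i ∧ q.1 ∈ i ∧ q.2 ∈ i := by
  unfold LS.Pv at h
  rw [Finset.mem_filter, Finset.mem_product, Finset.mem_range, Finset.mem_range] at h
  exact ⟨h.1.1, h.1.2, h.2.1, h.2.2⟩

theorem e3_ek_le (hG : Good L P pb) (v k : ℕ) (C : Finset ℕ) :
    ∑ g : Fin k → {i // i ∈ L.ls.filter (fun i => v ∈ i ∧ ¬ L.pre i)},
      (if Function.Injective g then ∏ l, At L P v (g l) C else 0) ≤
    ∑ f ∈ (Fintype.piFinset (fun _ : Fin k => L.Pv v)).filter (e3D L v k),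
      ∏ l, e3w L P v C (f l) := by
  classical
  set Lv := L.ls.filter (fun i => v ∈ i ∧ ¬ L.pre i) with hLv
  have hmem : ∀ i : {i // i ∈ Lv}, (i : Finset ℕ) ∈ L.ls ∧ v ∈ (i : Finset ℕ) ∧
      ¬ L.pre (i : Finset ℕ) := by
    intro i
    have := Finset.mem_filter.mp i.2
    exact ⟨this.1, this.2.1, this.2.2⟩
  rw [← Finset.sum_filter]
  set G := (Finset.univ : Finset (Fin k → {i // i ∈ Lv})).filter (fun g => Function.Injective g)
    with hGdef
  have h1 : ∀ g ∈ G, ∏ l, At L P v (g l) C ≤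
      ∑ f ∈ Fintype.piFinset (fun l => e3F L v (g l)), ∏ l, e3w L P v C (f l) := by
    intro g _
    rw [← Finset.prod_univ_sum (fun l => e3F L v (g l)) (fun _ q => e3w L P v C q)]
    refine Finset.prod_le_prod (fun l _ => At_nonneg hG v _ C) fun l _ => ?_
    exact e3_At_le hG v C (g l) (hmem _).1 (hmem _).2.1 (hmem _).2.2
  refine (Finset.sum_le_sum h1).trans ?_
  have hline : ∀ (g : Fin k → {i // i ∈ Lv}) (f : Fin k → ℕ × ℕ),
      f ∈ Fintype.piFinset (fun l => e3F L v (g l)) →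
      ∀ l, f l ∈ L.Pv v ∧ (f l).1 ∈ (g l : Finset ℕ) ∧ (f l).2 ∈ (g l : Finset ℕ) := by
    intro g f hf l
    rw [Fintype.mem_piFinset] at hf
    have := hf l
    unfold e3F at this
    rw [Finset.mem_filter] at this
    exact this
  rw [← Finset.sum_biUnion]
  · refine Finset.sum_le_sum_of_subset_of_nonneg ?_ fun f _ _ =>
      Finset.prod_nonneg fun l _ => e3w_nonneg hG v C _
    intro f hf
    rw [Finset.mem_biUnion] at hf
    obtain ⟨g, hg, hf⟩ := hf
    have hl := hline g f hf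
    rw [hGdef, Finset.mem_filter] at hg
    rw [Finset.mem_filter, Fintype.mem_piFinset]
    refine ⟨fun l => (hl l).1, ?_⟩
    rintro a b hab ⟨i, hi, hvi, ha, hb⟩
    have hia : i = (g a : Finset ℕ) := by
      have hp := e3_mem_Pv (hl a).1
      rcases ha with ha | ha
      · exact L.uniq i hi _ (hmem _).1 v (f a).1 (by omega) hvi ha (hmem _).2.1 (hl a).2.1
      · exact L.uniq i hi _ (hmem _).1 v (f a).2 (by omega) hvi ha (hmem _).2.1 (hl a).2.2
    have hib : i = (g b : Finset ℕ) := by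
      have hp := e3_mem_Pv (hl b).1
      rcases hb with hb | hb
      · exact L.uniq i hi _ (hmem _).1 v (f b).1 (by omega) hvi hb (hmem _).2.1 (hl b).2.1
      · exact L.uniq i hi _ (hmem _).1 v (f b).2 (by omega) hvi hb (hmem _).2.1 (hl b).2.2
    exact hab (hg.2 (Subtype.ext (hia.symm.trans hib)))
  · intro g _ g' _ hgg'
    rw [Function.onFun, Finset.disjoint_left]
    intro f hf hf'
    apply hgg'
    funext l
    have h1 := hline g f hf l
    have h2 := hline g' f hf' l
    have hp := e3_mem_Pv h1.1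
    exact Subtype.ext (L.uniq _ (hmem _).1 _ (hmem _).1 v (f l).1 (by omega)
      (hmem _).2.1 h1.2.1 (hmem _).2.1 h2.2.1)

end

end GPG
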