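import Pool.Agent.Helper97.GP.SCLs

open Filter Topology

namespace GPG

theorem sc_all {η κ2 e E4 d6 : ℝ} (hη : 0 < η) (hη1 : η < 1 / 10) (hκ2 : 0 < κ2)
    (he : 0 < e) (hE4 : 1 ≤ E4) (hd6 : 0 < d6) (B0 kE k3 k1 : ℕ)
    (hk1 : 9 ≤ (k1 : ℝ) * η / 25) :
    ∀ᶠ n : ℕ in atTop, SF η κ2 e E4 d6 B0 kE k3 k1 n := by
  have f1 := eventually_ge_atTop (α := ℕ) 1
  have f2 := sc_le (a := 99 * η / 100) (by positivity) (c := 1 / 2) (by norm_num)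
  have f3 := sc_le (a := 49 * η / 100) (by positivity) (c := 1 / 4) (by norm_num)
  have f4 := sc_ge (a := 47 * η / 300) (by positivity) 4
  have f5 : ∀ᶠ n : ℕ in atTop,
      (1 + (n : ℝ) ^ (-(η / 3))) ^ (kE ^ 2 + 9 + (2 * k3) ^ 2) ≤ 2 := by
    have h : Tendsto (fun n : ℕ => (1 + (n : ℝ) ^ (-(η / 3))) ^ (kE ^ 2 + 9 + (2 * k3) ^ 2)) atTop
        (𝓝 ((1 + 0) ^ (kE ^ 2 + 9 + (2 * k3) ^ 2))) :=
      (((tendsto_rpow_neg_atTop (by positivity : 0 < η / 3)).comp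
        tendsto_natCast_atTop_atTop).const_add 1).pow _
    rw [add_zero, one_pow] at h
    exact h.eventually_le_const (by norm_num)
  have f6 := sc_le (a := η / 3) (by positivity) (c := 1) (by norm_num)
  have hs1 : 0 < 1 - η / 4 := by linarith
  have hgap : 0 < 1 - η - (1 - 2 * η) / (1 - η / 4) := by
    rw [sub_pos, div_lt_iff₀ hs1]
    nlinarith [sq_nonneg η]
  have f7 := sc_ge (a := 1 - η - (1 - 2 * η) / (1 - η / 4)) hgap ((1 - κ2)⁻¹ ^ B0)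
  have f8 := sc_le (a := 99 * η / 100) (by positivity)
    (c := κ2 / (2 * ((kE : ℝ) ^ 2 + 1))) (by positivity)
  have f9 := sc_le (a := 49 * η / 100) (by positivity) (c := d6 * η / 8) (by positivity)
  have f10 := sc_le (a := 97 * η / 100) (by positivity) (c := d6 / 2) (by positivity)
  have f11 : ∀ᶠ n : ℕ in atTop, (2 * (k3 : ℝ) ^ 2 + 1) / (1 - 2 * η) ≤ Real.log n :=
    (Real.tendsto_log_atTop.comp tendsto_natCast_atTop_atTop).eventually_ge_atTop _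
  have f12 := sc_le (a := η / 20) (by positivity)
    (c := e / (8 * (E4 ^ ((2 * k3) ^ 2) * (2 * (k3 : ℝ) ^ 2 + 1)))) (by positivity)
  -- sizes
  have f13 := sc_ge (a := η / 20) (by positivity) (2 * ((k1 : ℝ) + 1) + (B0 : ℝ) ^ 2 + 2)
  have f14 := sc_ge (a := 9 * η / 20) (by positivity) (4 * (2 * (B0 : ℝ) + 4 * (k1 : ℝ) + 3))
  have f15 := sc_le (a := (1 : ℝ)) (by norm_num)
    (c := e / (2 * ((2 : ℝ) ^ ((2 * k1) ^ 2) * E4 ^ ((2 * k1) ^ 2 + 2 * k1) * 4 ^ k1)))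
    (by positivity)
  filter_upwards [f1, f2, f3, f4, f5, f6, f7, f8, f9, f10, f11, f12, f13, f14, f15]
    with n g1 g2 g3 g4 g5 g6 g7 g8 g9 g10 g11 g12 g13 g14 g15
  set x : ℝ := (n : ℝ) with hx
  have hx1 : 1 ≤ x := by rw [hx]; exact_mod_cast g1
  have hx0 : 0 < x := by linarith
  have hE0 : 0 < E4 := by linarith
  have hlog0 : 0 ≤ Real.log x := Real.log_nonneg hx1
  have hp0 : 0 < x ^ (-(99 * η / 100)) := Real.rpow_pos_of_pos hx0 _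
  have hA : x ^ (η / 2) = x ^ (η / 20) * x ^ (9 * η / 20) := by
    rw [← Real.rpow_add hx0]; congr 1; ring
  set u := x ^ (η / 20) with hu
  set w := x ^ (9 * η / 20) with hw
  have hB0' : (0 : ℝ) ≤ B0 := Nat.cast_nonneg _
  have hk1' : (0 : ℝ) ≤ k1 := Nat.cast_nonneg _
  have hu2 : 2 ≤ u := by linarith only [sq_nonneg (B0 : ℝ), hk1', g13]
  have hu0 : 0 < u := by linarith
  have hfl0 : (⌊u⌋₊ : ℝ) ≤ u := Nat.floor_le hu0.le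
  have hfl1 : u < (⌊u⌋₊ : ℝ) + 1 := Nat.lt_floor_add_one u
  have hxw0 : 0 < u * w := by
    have : 0 < w := Real.rpow_pos_of_pos hx0 _
    positivity
  have hF0 : (⌊u * w⌋₊ : ℝ) ≤ u * w := Nat.floor_le hxw0.le
  have hF1 : u * w < (⌊u * w⌋₊ : ℝ) + 1 := Nat.lt_floor_add_one _
  have hdiv1 : ((⌊u * w⌋₊ / 2 : ℕ) : ℝ) ≤ (⌊u * w⌋₊ : ℝ) / 2 := Nat.cast_div_le
  have hdiv2 : (⌊u * w⌋₊ : ℝ) / 2 - 1 / 2 ≤ ((⌊u * w⌋₊ / 2 : ℕ) : ℝ) := by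
    have : ⌊u * w⌋₊ ≤ 2 * (⌊u * w⌋₊ / 2) + 1 := by omega
    have h' : (⌊u * w⌋₊ : ℝ) ≤ 2 * ((⌊u * w⌋₊ / 2 : ℕ) : ℝ) + 1 := by exact_mod_cast this
    linarith
  have huw : u * (4 * (2 * (B0 : ℝ) + 4 * (k1 : ℝ) + 3)) ≤ u * w :=
    mul_le_mul_of_nonneg_left g14 hu0.le
  have hBB : (B0 : ℝ) ^ 2 ≤ u := by linarith only [hk1', g13]
  have key : x ^ (8 : ℕ) * (4 ^ k1 * (x ^ (-(η / 25))) ^ k1) ≤ 4 ^ k1 * x ^ (-(1 : ℝ)) := by
    have h1 : (x ^ (-(η / 25))) ^ k1 = x ^ (-(η / 25) * k1) := by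
      rw [← Real.rpow_natCast, ← Real.rpow_mul hx0.le]
    have h2 : x ^ (8 : ℕ) = x ^ (8 : ℝ) := by
      rw [← Real.rpow_natCast]; norm_num
    rw [h1, h2]
    have h3 : x ^ (8 : ℝ) * (4 ^ k1 * x ^ (-(η / 25) * k1)) =
        4 ^ k1 * x ^ (8 + -(η / 25) * k1) := by
      rw [Real.rpow_add hx0]; ring
    rw [h3]
    refine mul_le_mul_of_nonneg_left ?_ (by positivity)
    refine Real.rpow_le_rpow_of_exponent_le hx1 ?_
    linarith only [hk1, (by ring : (η / 25) * (k1 : ℝ) = (k1 : ℝ) * η / 25)]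
  set CC := (2 : ℝ) ^ ((2 * k1) ^ 2) * E4 ^ ((2 * k1) ^ 2 + 2 * k1) with hCC
  have hCC0 : 0 < CC := by positivity
  have hfin : CC * (4 ^ k1 * x ^ (-(1 : ℝ))) ≤ e / 2 := by
    have h1 : CC * (4 ^ k1 * x ^ (-(1 : ℝ))) ≤ CC * (4 ^ k1 * (e / (2 * (CC * 4 ^ k1)))) := by
      refine mul_le_mul_of_nonneg_left (mul_le_mul_of_nonneg_left g15 (by positivity)) hCC0.le
    refine h1.trans (le_of_eq ?_)
    field_simp
  have hCk : (2 : ℝ) ^ (k1 ^ 2) * E4 ^ (k1 ^ 2 + k1) ≤ CC := by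
    rw [hCC]
    refine mul_le_mul (pow_le_pow_right₀ (by norm_num) ?_) (pow_le_pow_right₀ hE4 ?_)
      (by positivity) (by positivity)
    · exact Nat.pow_le_pow_left (by omega) 2
    · have : k1 ^ 2 ≤ (2 * k1) ^ 2 := Nat.pow_le_pow_left (by omega) 2
      omega
  have hR : ∀ D : ℝ, 0 < D → D * x ^ (η / 100) ≤ 4 * x ^ (-(η / 25)) * (D * D) → True :=
    fun _ _ _ => trivial
  refine ⟨g1, g2, ?_, g6, g5, ?_, ?_, ?_, ?_, ?_, ?_, ?_, ?_, ?_, ?_⟩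
  · exact sc_S0 hη hx1 g2 (by linarith) g4
  · -- hK
    have h1 : Real.exp (((1 - 2 * η) * Real.log x) / (1 - η / 4)) =
        x ^ ((1 - 2 * η) / (1 - η / 4)) := by
      rw [Real.rpow_def_of_pos hx0]
      congr 1
      ring
    rw [h1]
    have h2 : x ^ (1 - η) = x ^ (1 - η - (1 - 2 * η) / (1 - η / 4)) *
        x ^ ((1 - 2 * η) / (1 - η / 4)) := by
      rw [← Real.rpow_add hx0]; congr 1; ring
    rw [h2]
    exact mul_le_mul_of_nonneg_right g7 (Real.rpow_nonneg hx0.le _)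
  · -- pbk
    rw [div_le_iff₀ hκ2]
    have h1 : (kE : ℝ) ^ 2 * x ^ (-(99 * η / 100)) ≤
        (kE : ℝ) ^ 2 * (κ2 / (2 * ((kE : ℝ) ^ 2 + 1))) :=
      mul_le_mul_of_nonneg_left g8 (by positivity)
    refine h1.trans ?_
    rw [mul_div_assoc', div_le_iff₀ (by positivity)]
    nlinarith only [sq_nonneg (kE : ℝ), hκ2]
  · -- h6
    have h1 : Real.log x ≤ x ^ (η / 2) / (η / 2) := Real.log_le_rpow_div hx0.le (by positivity)
    have h2 : x ^ (-(99 * η / 100)) * x ^ (η / 2) = x ^ (-(49 * η / 100)) := by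
      rw [← Real.rpow_add hx0]; congr 1; ring
    have h3 : x ^ (-(99 * η / 100)) * x ^ (η / 50) = x ^ (-(97 * η / 100)) := by
      rw [← Real.rpow_add hx0]; congr 1; ring
    have h4 : x ^ (-(99 * η / 100)) * (2 * Real.log x) ≤ d6 / 2 := by
      calc x ^ (-(99 * η / 100)) * (2 * Real.log x)
          ≤ x ^ (-(99 * η / 100)) * (2 * (x ^ (η / 2) / (η / 2))) := by
            refine mul_le_mul_of_nonneg_left (by linarith) hp0.le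
        _ = (x ^ (-(99 * η / 100)) * x ^ (η / 2)) * (4 / η) := by field_simp; ring
        _ = x ^ (-(49 * η / 100)) * (4 / η) := by rw [h2]
        _ ≤ (d6 * η / 8) * (4 / η) := mul_le_mul_of_nonneg_right g9 (by positivity)
        _ = d6 / 2 := by field_simp; ring
    rw [mul_add, h3]
    linarith
  · -- A1
    have h1 : 0 < 1 - 2 * η := by linarith
    rw [div_le_iff₀ h1] at g11
    linarith
  · -- h8
    have hE : 0 < E4 ^ ((2 * k3) ^ 2) := by positivity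
    have h1 : E4 ^ ((2 * k3) ^ 2) * (2 * (k3 : ℝ) ^ 2) * x ^ (-(η / 20)) ≤
        E4 ^ ((2 * k3) ^ 2) * (2 * (k3 : ℝ) ^ 2) *
          (e / (8 * (E4 ^ ((2 * k3) ^ 2) * (2 * (k3 : ℝ) ^ 2 + 1)))) :=
      mul_le_mul_of_nonneg_left g12 (by positivity)
    refine h1.trans ?_
    rw [mul_div_assoc', div_le_div_iff₀ (by positivity) (by norm_num)]
    have : 0 ≤ E4 ^ ((2 * k3) ^ 2) * e := by positivity
    nlinarith only [this, sq_nonneg (k3 : ℝ), mul_nonneg this (sq_nonneg (k3 : ℝ))]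
  · -- m1
    rw [hA]
    have h1 : ((B0 ^ 2 + 2 * B0 * ⌊u⌋₊ + ⌊u * w⌋₊ / 2 : ℕ) : ℝ) ≤ ((⌊u * w⌋₊ : ℕ) : ℝ) := by
      push_cast
      have h2 : (2 : ℝ) * B0 * ⌊u⌋₊ ≤ 2 * B0 * u := mul_le_mul_of_nonneg_left hfl0 (by positivity)
      have h3 : u * (4 * (2 * (B0 : ℝ) + 4 * (k1 : ℝ) + 3)) ≥ 4 * (2 * B0 * u) + 12 * u := by
        linarith only [mul_nonneg hu0.le hk1']
      have h4 : (((⌊u * w⌋₊ / 2 : ℕ)) : ℝ) ≤ (⌊u * w⌋₊ : ℝ) / 2 := hdiv1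
      linarith only [h2, h3, h4, huw, hF1, hBB, hu2, mul_nonneg hu0.le hB0']
    exact_mod_cast h1
  · -- m2
    have h1 : (k1 : ℝ) < (⌊u⌋₊ : ℝ) := by linarith only [sq_nonneg (B0 : ℝ), g13, hfl1, hk1']
    exact_mod_cast h1
  · -- m3
    rw [hA]
    have h1 : ((4 * ⌊u⌋₊ * k1 : ℕ) : ℝ) < ((⌊u * w⌋₊ / 2 : ℕ) : ℝ) := by
      push_cast
      have h2 : (4 : ℝ) * ⌊u⌋₊ * k1 ≤ 4 * u * k1 := by
        refine mul_le_mul_of_nonneg_right ?_ hk1'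
        linarith
      have h3 : u * (4 * (2 * (B0 : ℝ) + 4 * (k1 : ℝ) + 3)) ≥ 16 * (u * k1) + 12 * u := by
        linarith only [mul_nonneg hu0.le hB0']
      have h4 := hdiv2
      linarith only [h2, h3, h4, huw, hF1, hu2, mul_nonneg hu0.le hk1']
    exact_mod_cast h1
  · -- m4
    have hD : u / 2 ≤ (⌊u⌋₊ : ℝ) - k1 := by linarith only [sq_nonneg (B0 : ℝ), g13, hfl1]
    have hD0 : 0 < (⌊u⌋₊ : ℝ) - k1 := by linarith
    have hq : x ^ (η / 100) / ((⌊u⌋₊ : ℝ) - k1) ≤ 4 * x ^ (-(η / 25)) := by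
      rw [div_le_iff₀ hD0]
      have h1 : x ^ (η / 100) = x ^ (-(η / 25)) * u := by
        rw [hu, ← Real.rpow_add hx0]; congr 1; ring
      rw [h1]
      have h2 := Real.rpow_pos_of_pos hx0 (-(η / 25))
      linarith only [mul_le_mul_of_nonneg_left hD h2.le, mul_pos h2 hD0]
    have hq0 : 0 ≤ x ^ (η / 100) / ((⌊u⌋₊ : ℝ) - k1) :=
      div_nonneg (Real.rpow_nonneg hx0.le _) hD0.le
    have e1 : x ^ 8 * ((2 : ℝ) ^ (k1 ^ 2) * E4 ^ (k1 ^ 2 + k1) * (x ^ (η / 100)) ^ k1 /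
        ((⌊u⌋₊ : ℝ) - k1) ^ k1) = ((2 : ℝ) ^ (k1 ^ 2) * E4 ^ (k1 ^ 2 + k1)) *
        (x ^ 8 * (x ^ (η / 100) / ((⌊u⌋₊ : ℝ) - k1)) ^ k1) := by
      rw [div_pow]; ring
    rw [e1]
    have e2 : (x ^ (η / 100) / ((⌊u⌋₊ : ℝ) - k1)) ^ k1 ≤ 4 ^ k1 * (x ^ (-(η / 25))) ^ k1 := by
      rw [← mul_pow]
      exact pow_le_pow_left₀ hq0 hq _
    have e3 : x ^ 8 * (x ^ (η / 100) / ((⌊u⌋₊ : ℝ) - k1)) ^ k1 ≤ 4 ^ k1 * x ^ (-(1 : ℝ)) :=
      (mul_le_mul_of_nonneg_left e2 (by positivity)).trans key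
    calc _ ≤ CC * (4 ^ k1 * x ^ (-(1 : ℝ))) :=
          mul_le_mul hCk e3 (mul_nonneg (by positivity) (pow_nonneg hq0 _)) hCC0.le
      _ ≤ _ := hfin
  · -- m5
    rw [hA]
    have hD : u * w / 4 ≤ ((⌊u * w⌋₊ / 2 : ℕ) : ℝ) - 4 * ⌊u⌋₊ * k1 := by
      have h2 : (4 : ℝ) * ⌊u⌋₊ * k1 ≤ 4 * u * k1 := by
        refine mul_le_mul_of_nonneg_right ?_ hk1'
        linarith
      have h3 : u * (4 * (2 * (B0 : ℝ) + 4 * (k1 : ℝ) + 3)) ≥ 16 * (u * k1) + 12 * u := by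
        linarith only [mul_nonneg hu0.le hB0']
      have h4 := hdiv2
      linarith only [h2, h3, h4, huw, hF1, hu2, mul_nonneg hu0.le hk1']
    have hw1 : 1 ≤ w := by linarith only [g14, hB0', hk1']
    have hD0 : 0 < ((⌊u * w⌋₊ / 2 : ℕ) : ℝ) - 4 * ⌊u⌋₊ * k1 := by
      have : 0 < u * w / 4 := by positivity
      linarith
    have hq : x ^ (η / 100) / (((⌊u * w⌋₊ / 2 : ℕ) : ℝ) - 4 * ⌊u⌋₊ * k1) ≤
        4 * x ^ (-(η / 25)) := by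
      rw [div_le_iff₀ hD0]
      have h1 : x ^ (η / 100) = x ^ (-(η / 25)) * u := by
        rw [hu, ← Real.rpow_add hx0]; congr 1; ring
      rw [h1]
      have h2 := Real.rpow_pos_of_pos hx0 (-(η / 25))
      have h3 : u ≤ 4 * (((⌊u * w⌋₊ / 2 : ℕ) : ℝ) - 4 * ⌊u⌋₊ * k1) := by linarith only [hD, le_mul_of_one_le_right hu0.le hw1]
      linarith only [mul_le_mul_of_nonneg_left h3 h2.le]
    have hq0 : 0 ≤ x ^ (η / 100) / (((⌊u * w⌋₊ / 2 : ℕ) : ℝ) - 4 * ⌊u⌋₊ * k1) :=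
      div_nonneg (Real.rpow_nonneg hx0.le _) hD0.le
    have e1 : x ^ 2 * (CC * (x ^ (η / 100)) ^ k1 /
        (((⌊u * w⌋₊ / 2 : ℕ) : ℝ) - 4 * ⌊u⌋₊ * k1) ^ k1) = CC *
        (x ^ 2 * (x ^ (η / 100) / (((⌊u * w⌋₊ / 2 : ℕ) : ℝ) - 4 * ⌊u⌋₊ * k1)) ^ k1) := by
      rw [div_pow]; ring
    rw [e1]
    have e2 : (x ^ (η / 100) / (((⌊u * w⌋₊ / 2 : ℕ) : ℝ) - 4 * ⌊u⌋₊ * k1)) ^ k1 ≤
        4 ^ k1 * (x ^ (-(η / 25))) ^ k1 := by
      rw [← mul_pow]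
      exact pow_le_pow_left₀ hq0 hq _
    have e3 : x ^ 2 * (x ^ (η / 100) / (((⌊u * w⌋₊ / 2 : ℕ) : ℝ) - 4 * ⌊u⌋₊ * k1)) ^ k1 ≤
        4 ^ k1 * x ^ (-(1 : ℝ)) := by
      refine le_trans ?_ key
      refine mul_le_mul (pow_le_pow_right₀ hx1 (by norm_num)) e2 (pow_nonneg hq0 _) (by positivity)
    exact (mul_le_mul_of_nonneg_left e3 hCC0.le).trans hfin

end GPG
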