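import Pool.Agent.Helper97.GP.SCLc
import Pool.Agent.Helper97.GP.SCLa

/-!
# The distribution on the classes (block SCL)
-/

open Finset Filter
open scoped Classical

namespace GPG

noncomputable section

/-- the probability that a point is stopped is small -/
theorem sc_stop {η κ δ E4 : ℝ} {B0 kE k3 k1 n : ℕ} (hκ0 : 0 < κ) (hκ : κ < 1)
    (sf : SF η ((1 + κ) / 2) (δ / 4) E4 (δ * (η / 4) ^ 2 / 64) B0 kE k3 k1 n)
    (hη0 : 0 < η) (hη : η < 1 / 10) (hδ0 : 0 < δ) (hE4 : 1 ≤ E4)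
    (hE4κ : (1 - (1 + κ) / 2)⁻¹ ≤ E4) (hE4s : (1 - η / 4)⁻¹ ≤ E4)
    (hkE : (κ / ((1 + κ) / 2)) ^ kE ≤ (δ / 4) / (4 * (B0 + 1)))
    (hk3 : 1 ≤ k3) (hk3' : ((1 - 3 * η) / (1 - 2 * η)) ^ k3 ≤ (δ / 4) / 8)
    (L : LS) (lam : ℕ → ℝ) (hN : L.N ≤ n ^ 2) (hls : L.ls.card ≤ n ^ 6)
    (hlam : ∀ v, 0 ≤ lam v ∧ lam v ≤ (n : ℝ) ^ (-1 + η / 100))
    (hpre : ∀ v < L.N, ∀ i ∈ L.ls, v ∈ i → L.pre i → ∑ z ∈ i.filter (fun z => z < v), lam z ≤ κ)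
    (hB0 : ∀ v < L.N, (L.ls.filter (fun i => L.pre i ∧ v ∈ i)).card ≤ B0)
    (hw3 : ∀ v < L.N, ∑ i ∈ L.ls.filter (fun i => v ∈ i ∧ ¬ L.pre i),
        (∑ z ∈ i.filter (fun z => z < v), lam z) ^ 3 ≤ δ * (η / 4) ^ 2 / 64)
    (hμ : ∀ v < L.N, ∑ q ∈ L.Pv v, lam q.1 * lam q.2 ≤ (1 - 3 * η) * Real.log n)
    (hR1 : ∀ i ∈ L.ls, ∀ w < L.N, w ∉ i → ∑ y ∈ i, L.r lam w y ≤ (n : ℝ) ^ (η / 100))
    (hR2 : ∀ u < L.N, ∀ v < L.N, u ≠ v →
        ∑ y ∈ (range L.N).filter (fun y => y ≠ u ∧ y ≠ v ∧ ¬ L.Coll y u v),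
          L.r lam u y * L.r lam v y ≤ (n : ℝ) ^ (η / 100))
    (hξ : ∀ v < L.N, ∀ s < L.N, s ≠ v →
        ∑ q ∈ (L.Pv v).filter (fun q => L.Lng ⌊(n : ℝ) ^ (η / 2)⌋₊ v s q.1 ∨
            L.Lng ⌊(n : ℝ) ^ (η / 2)⌋₊ v s q.2), lam q.1 * lam q.2 ≤
          (n : ℝ) ^ (-η / 20)) (v : ℕ) (hv : v < L.N) :
    Ex L (scP lam η E4 n) v (fun C => if (run L (scP lam η E4 n) C v).stop v then
      (run L (scP lam η E4 n) C v).Z v else 0) ≤ δ := by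
  have hG := sc_good sf hη0 hη hE4 L lam hlam
  have h := stopped hG v hv ⌊(n : ℝ) ^ (η / 2)⌋₊ sf.hS0 B0 ((1 + κ) / 2) (η / 4)
    ((1 - 2 * η) * Real.log n) (δ / 4) (hB0 v hv) (by linarith) (by linarith) (by linarith)
    (by linarith) hE4κ hE4s sf.hK
    (fun i hi hvi hp => sc_h1 sf hη0 hη hE4 L lam hlam hκ0 (by linarith) hkE v hv i hi hvi hp
      (hpre v hv i hi hvi hp))
    (sc_h2 sf hη0 hη hE4 L lam hlam (by
      have : 0 < δ * (η / 4) ^ 2 := by positivity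
      linarith) hN v hv (hw3 v hv) (hμ v hv))
    (sc_h3 sf hη0 hη hE4 L lam hlam hk3 hk3' v hv (hμ v hv) (by
      intro s hs hsv
      have := hξ v hv s hs hsv
      rwa [neg_div] at this))
    (sc_h4 sf hη0 hη hE4 L lam hlam hN hls hB0 v hv hR1 (fun u hu huv => hR2 u hu v hv huv))
  linarith

theorem sc_sumf (L : LS) (P : Par) (p : Finset ℕ → Prop) [DecidablePred p] :
    ∑ C ∈ (range L.N).powerset.filter p, (if C ⊆ range L.N then wt L P L.N C else 0) =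
      Ex L P L.N (fun C => if p C then (1 : ℝ) else 0) := by
  unfold Ex
  rw [sum_filter]
  refine sum_congr rfl (fun C hC => ?_)
  by_cases h : p C
  · rw [if_pos h, if_pos (mem_powerset.1 hC)]
    show _ = _ * (if p C then (1 : ℝ) else 0)
    rw [if_pos h, mul_one]
  · rw [if_neg h]
    show _ = _ * (if p C then (1 : ℝ) else 0)
    rw [if_neg h, mul_zero]

/-- the distribution on the classes -/
theorem scl (κ η δ : ℝ) (hκ0 : 0 < κ) (hκ : κ < 1) (hη0 : 0 < η) (hη : η < 1 / 10)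
    (hδ0 : 0 < δ) (hδ : δ < 1) :
    ∃ δ3 > (0 : ℝ), ∀ B0 : ℕ, ∃ C4 > (0 : ℝ), ∃ n0 : ℕ, ∀ n ≥ n0, ∀ (L : LS) (lam : ℕ → ℝ),
      (L.N ≤ n ^ 2) → (L.ls.card ≤ n ^ 6) →
      (∀ v, 0 ≤ lam v ∧ lam v ≤ (n : ℝ) ^ (-1 + η / 100)) →
      (∀ v < L.N, ∀ i ∈ L.ls, v ∈ i → L.pre i → ∑ z ∈ i.filter (fun z => z < v), lam z ≤ κ) →
      (∀ v < L.N, (L.ls.filter (fun i => L.pre i ∧ v ∈ i)).card ≤ B0) →
      (∀ v < L.N, ∑ i ∈ L.ls.filter (fun i => v ∈ i ∧ ¬ L.pre i),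
        (∑ z ∈ i.filter (fun z => z < v), lam z) ^ 3 ≤ δ3) →
      (∀ v < L.N, ∑ q ∈ L.Pv v, lam q.1 * lam q.2 ≤ (1 - 3 * η) * Real.log n) →
      (∀ i ∈ L.ls, ∀ w < L.N, w ∉ i → ∑ y ∈ i, L.r lam w y ≤ (n : ℝ) ^ (η / 100)) →
      (∀ u < L.N, ∀ v < L.N, u ≠ v →
        ∑ y ∈ (range L.N).filter (fun y => y ≠ u ∧ y ≠ v ∧ ¬ L.Coll y u v),
          L.r lam u y * L.r lam v y ≤ (n : ℝ) ^ (η / 100)) →
      (∀ v < L.N, ∀ s < L.N, s ≠ v →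
        ∑ q ∈ (L.Pv v).filter (fun q => L.Lng ⌊(n : ℝ) ^ (η / 2)⌋₊ v s q.1 ∨
            L.Lng ⌊(n : ℝ) ^ (η / 2)⌋₊ v s q.2), lam q.1 * lam q.2 ≤
          (n : ℝ) ^ (-η / 20)) →
      ∃ W : Finset ℕ → ℝ, (∀ C, 0 ≤ W C) ∧
        (∀ C, W C ≠ 0 → C ⊆ range L.N ∧ (∀ v ∈ C, lam v ≠ 0) ∧ ∀ i ∈ L.ls,
          (L.pre i → (C ∩ i).card ≤ 1) ∧ (C ∩ i).card ≤ 2) ∧
        (∑ C ∈ (range L.N).powerset, W C = 1) ∧
        (∀ v < L.N, (1 - δ) * lam v ≤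
          ∑ C ∈ (range L.N).powerset.filter (fun C => v ∈ C), W C) ∧
        (∀ u < L.N, ∀ v < L.N, u ≠ v →
          ∑ C ∈ (range L.N).powerset.filter (fun C => u ∈ C ∧ v ∈ C), W C ≤
            C4 * lam u * lam v) := by
  refine ⟨δ * (η / 4) ^ 2 / 64, by positivity, fun B0 => ?_⟩
  set E4 : ℝ := max ((1 - (1 + κ) / 2)⁻¹) ((1 - η / 4)⁻¹) with hE4d
  have hE4κ : (1 - (1 + κ) / 2)⁻¹ ≤ E4 := le_max_left _ _
  have hE4s : (1 - η / 4)⁻¹ ≤ E4 := le_max_right _ _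
  have hE4 : 1 ≤ E4 := by
    refine le_trans ?_ hE4s
    rw [one_le_inv₀ (by linarith)]
    linarith
  have hE0 : 0 < E4 := by linarith
  have hB0r : (0 : ℝ) < B0 + 1 := by positivity
  -- the exponents
  obtain ⟨kE, hkE⟩ : ∃ k : ℕ, (κ / ((1 + κ) / 2)) ^ k ≤ (δ / 4) / (4 * (B0 + 1)) := by
    obtain ⟨k, hk⟩ := exists_pow_lt_of_lt_one (by positivity : 0 < (δ / 4) / (4 * ((B0 : ℝ) + 1)))
      (by rw [div_lt_one (by linarith)]; linarith : κ / ((1 + κ) / 2) < 1)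
    exact ⟨k, hk.le⟩
  obtain ⟨k3, hk3, hk3'⟩ : ∃ k : ℕ, 1 ≤ k ∧
      ((1 - 3 * η) / (1 - 2 * η)) ^ k ≤ (δ / 4) / 8 := by
    have h0 : 0 ≤ (1 - 3 * η) / (1 - 2 * η) := div_nonneg (by linarith) (by linarith)
    have h1 : (1 - 3 * η) / (1 - 2 * η) < 1 := by
      rw [div_lt_one (by linarith)]; linarith
    obtain ⟨k, hk⟩ := exists_pow_lt_of_lt_one (by positivity : 0 < (δ / 4) / 8) h1
    refine ⟨k + 1, by omega, ?_⟩
    rw [pow_succ]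
    have h2 : ((1 - 3 * η) / (1 - 2 * η)) ^ k * ((1 - 3 * η) / (1 - 2 * η)) ≤
        ((1 - 3 * η) / (1 - 2 * η)) ^ k * 1 :=
      mul_le_mul_of_nonneg_left h1.le (pow_nonneg h0 _)
    linarith
  obtain ⟨k1, hk1⟩ : ∃ k : ℕ, 9 ≤ (k : ℝ) * η / 25 := by
    obtain ⟨k, hk⟩ := exists_nat_ge (225 / η)
    refine ⟨k, ?_⟩
    rw [div_le_iff₀ hη0] at hk
    linarith
  have hev := sc_all hη0 hη (κ2 := (1 + κ) / 2) (by linarith) (e := δ / 4) (by linarith) hE4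
    (d6 := δ * (η / 4) ^ 2 / 64) (by positivity) B0 kE k3 k1 hk1
  obtain ⟨n0, hn0⟩ := eventually_atTop.1 hev
  refine ⟨16 * E4 ^ 6, by positivity, n0, ?_⟩
  intro n hn L lam hN hls hlam hpre hB0 hw3 hμ hR1 hR2 hξ
  have sf := hn0 n hn
  have hG := sc_good sf hη0 hη hE4 L lam hlam
  have hn1 : (1 : ℝ) ≤ n := by exact_mod_cast sf.n1
  have hnp : (0 : ℝ) < n := by linarith
  set P := scP lam η E4 n with hP
  refine ⟨fun C => if C ⊆ range L.N then wt L P L.N C else 0, ?_, ?_, ?_, ?_, ?_⟩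
  · intro C
    simp only
    split_ifs
    · exact wt_nonneg hG _ _
    · exact le_rfl
  · intro C hC
    simp only at hC
    by_cases hs : C ⊆ range L.N
    · rw [if_pos hs] at hC
      refine ⟨hs, ?_, fun i hi => good_of_wt hG C hs hC i hi⟩
      intro v hv h0
      have h1 := pr_ne_zero_of_wt hC hv (mem_range.1 (hs hv))
      apply h1
      unfold pr St.m
      have : P.lam v = 0 := h0
      rw [this]
      simp
    · rw [if_neg hs] at hC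
      exact absurd rfl hC
  · have h1 := Ex_one (L := L) (P := P) L.N
    rw [← h1]
    unfold Ex
    refine sum_congr rfl (fun C hC => ?_)
    simp only
    rw [if_pos (mem_powerset.1 hC), mul_one]
  · intro v hv
    refine le_of_le_of_eq ?_ (sc_sumf L P (fun C => v ∈ C)).symm
    rw [Ex_mem_eq hG v L.N hv]
    have h1 := sc_stop hκ0 hκ sf hη0 hη hδ0 hE4 hE4κ hE4s hkE hk3 hk3' L lam hN hls hlam hpre
      hB0 hw3 hμ hR1 hR2 hξ v hv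
    have h2 : P.lam v = lam v := rfl
    rw [h2, mul_comm]
    refine mul_le_mul_of_nonneg_left ?_ (hlam v).1
    linarith
  · intro u hu v hv huv
    refine le_trans (le_of_eq (sc_sumf L P (fun C => u ∈ C ∧ v ∈ C))) ?_
    have hX : ∀ s ∈ ({u, v} : Finset ℕ), s < L.N := by
      intro s hs
      rw [mem_insert, mem_singleton] at hs
      rcases hs with rfl | rfl
      · exact hu
      · exact hv
    have h1 := PLX hG L.N le_rfl {u, v} hX ⌊(n : ℝ) ^ (η / 2)⌋₊ sf.hS0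
    have h2 : Ex L P L.N (fun C => if u ∈ C ∧ v ∈ C then 1 else 0) =
        Ex L P L.N (fun C => if (∀ s ∈ ({u, v} : Finset ℕ), s < tau L P L.N C ∧ s ∈ C) then
        (run L P C L.N).Z L.N else 0) := by
      refine Ex_congr _ _ _ (fun C _ _ => ?_)
      rw [sc_tau_out hG, (sc_out hG C L.N).1]
      have : (∀ s ∈ ({u, v} : Finset ℕ), s < L.N ∧ s ∈ C) ↔ (u ∈ C ∧ v ∈ C) := by
        simp only [mem_insert, mem_singleton, forall_eq_or_imp, forall_eq]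
        tauto
      simp only [this]
    rw [h2]
    refine h1.trans ?_
    have hc : ({u, v} : Finset ℕ).card = 2 := card_pair huv
    rw [hc, prod_pair huv]
    have h3 : (1 + P.e1) ^ (2 ^ 2) ≤ 16 := by
      have h4 : 1 + P.e1 ≤ 2 := by
        have := sf.e1le
        show 1 + (n : ℝ) ^ (-(η / 3)) ≤ 2
        linarith
      have h5 : 0 ≤ 1 + P.e1 := by linarith [hG.e10]
      calc (1 + P.e1) ^ (2 ^ 2) ≤ 2 ^ (2 ^ 2) := pow_le_pow_left₀ h5 h4 _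
        _ = 16 := by norm_num
    have hl : 0 ≤ lam u * lam v := mul_nonneg (hlam u).1 (hlam v).1
    show (1 + P.e1) ^ (2 ^ 2) * E4 ^ (2 ^ 2 + 2) * (lam u * lam v) ≤ 16 * E4 ^ 6 * lam u * lam v
    have h6 : (1 + P.e1) ^ (2 ^ 2) * E4 ^ (2 ^ 2 + 2) ≤ 16 * E4 ^ 6 :=
      mul_le_mul_of_nonneg_right h3 (by positivity)
    calc (1 + P.e1) ^ (2 ^ 2) * E4 ^ (2 ^ 2 + 2) * (lam u * lam v) ≤
        16 * E4 ^ 6 * (lam u * lam v) := mul_le_mul_of_nonneg_right h6 hl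
      _ = _ := by ring

end

end GPG
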