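import Pool.Agent.Helper96.GP.Basics

/-!
# Auxiliary facts for the block SCL
-/

open Finset
open scoped Classical

namespace GPG

noncomputable section

variable {L : LS} {P : Par} {pb : ℝ}

/-- the square of a sum over a finite set of points -/
theorem sc_sq (lam : ℕ → ℝ) (I : Finset ℕ) :
    (∑ z ∈ I, lam z) ^ 2 = 2 * ∑ q ∈ prs I, lam q.1 * lam q.2 + ∑ z ∈ I, lam z ^ 2 := by
  induction I using Finset.induction_on_max with
  | empty => simp [prs]
  | insert a s ha ih =>
    have has : a ∉ s := fun h => lt_irrefl _ (ha a h)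
    have h1 : prs (insert a s) = prs s ∪ s.image (fun z => (z, a)) := by
      ext ⟨x, y⟩
      simp only [prs, mem_filter, mem_product, mem_insert, mem_union, mem_image, Prod.mk.injEq]
      constructor
      · rintro ⟨⟨h1 | h1, h2 | h2⟩, h3⟩
        · omega
        · have := ha y h2; omega
        · exact Or.inr ⟨x, h1, rfl, h2.symm⟩
        · exact Or.inl ⟨⟨h1, h2⟩, h3⟩
      · rintro (⟨⟨h1, h2⟩, h3⟩ | ⟨z, hz, h1, h2⟩)
        · exact ⟨⟨Or.inr h1, Or.inr h2⟩, h3⟩
        · subst h1; subst h2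
          exact ⟨⟨Or.inr hz, Or.inl rfl⟩, ha z hz⟩
    have h2 : Disjoint (prs s) (s.image (fun z => (z, a))) := by
      rw [disjoint_left]
      rintro ⟨x, y⟩ hx hy
      simp only [prs, mem_filter, mem_product] at hx
      simp only [mem_image, Prod.mk.injEq] at hy
      obtain ⟨z, hz, h1, h2⟩ := hy
      exact has (h2 ▸ hx.1.2)
    rw [h1, sum_union h2, sum_insert has, sum_insert has, sum_image (by
      intro x _ y _ h; simpa using h)]
    have h3 : ∑ z ∈ s, lam z * lam a = (∑ z ∈ s, lam z) * lam a := by rw [sum_mul]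
    simp only
    rw [h3, add_sq, ih]
    ring

/-- sum over the lines through `v` of the squares of the weights -/
theorem sc_sum_sq (L : LS) (lam : ℕ → ℝ) (h0 : ∀ v, 0 ≤ lam v) (v : ℕ) :
    ∑ i ∈ L.ls.filter (fun i => v ∈ i ∧ ¬ L.pre i), (∑ z ∈ i.filter (fun z => z < v), lam z) ^ 2 ≤
      2 * ∑ q ∈ L.Pv v, lam q.1 * lam q.2 + ∑ z ∈ range v, lam z ^ 2 := by
  have h1 : ∑ i ∈ L.ls.filter (fun i => v ∈ i ∧ ¬ L.pre i),
      (∑ z ∈ i.filter (fun z => z < v), lam z) ^ 2 =
      2 * ∑ i ∈ L.ls.filter (fun i => v ∈ i ∧ ¬ L.pre i),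
        ∑ q ∈ prs (i.filter (fun z => z < v)), lam q.1 * lam q.2 +
      ∑ i ∈ L.ls.filter (fun i => v ∈ i ∧ ¬ L.pre i), ∑ z ∈ i.filter (fun z => z < v), lam z ^ 2 := by
    rw [mul_sum, ← sum_add_distrib]
    exact sum_congr rfl (fun i _ => sc_sq lam _)
  rw [h1]
  have h2 : ∑ i ∈ L.ls.filter (fun i => v ∈ i ∧ ¬ L.pre i),
        ∑ q ∈ prs (i.filter (fun z => z < v)), lam q.1 * lam q.2 ≤
      ∑ q ∈ L.Pv v, lam q.1 * lam q.2 := by
    rw [← sum_biUnion]
    · refine sum_le_sum_of_subset_of_nonneg ?_ (fun q _ _ => mul_nonneg (h0 _) (h0 _))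
      intro q hq
      simp only [mem_biUnion, prs, mem_filter, mem_product] at hq
      obtain ⟨i, ⟨hi, hv, hp⟩, ⟨⟨hq1, hq1'⟩, hq2, hq2'⟩, hq3⟩ := hq
      simp only [LS.Pv, mem_filter, mem_product, mem_range]
      exact ⟨⟨hq1', hq2'⟩, hq3, i, hi, hp, hv, hq1, hq2⟩
    · intro i hi j hj hij
      rw [Function.onFun, disjoint_left]
      intro q hq hq'
      simp only [prs, mem_filter, mem_product] at hq hq'
      simp only [coe_filter, Set.mem_ofPred_eq] at hi hj
      exact hij (L.uniq i hi.1 j hj.1 q.1 q.2 (ne_of_lt hq.2) hq.1.1.1 hq.1.2.1 hq'.1.1.1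
        hq'.1.2.1)
  have h3 : ∑ i ∈ L.ls.filter (fun i => v ∈ i ∧ ¬ L.pre i),
      ∑ z ∈ i.filter (fun z => z < v), lam z ^ 2 ≤ ∑ z ∈ range v, lam z ^ 2 := by
    rw [← sum_biUnion]
    · refine sum_le_sum_of_subset_of_nonneg ?_ (fun q _ _ => sq_nonneg _)
      intro z hz
      simp only [mem_biUnion, mem_filter] at hz
      obtain ⟨i, _, _, hz⟩ := hz
      exact mem_range.2 hz
    · intro i hi j hj hij
      rw [Function.onFun, disjoint_left]
      intro z hz hz'
      simp only [mem_filter] at hz hz'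
      simp only [coe_filter, Set.mem_ofPred_eq] at hi hj
      exact hij (L.uniq i hi.1 j hj.1 z v (ne_of_lt hz.2) hz.1 hi.2.1 hz'.1 hj.2.1)
  linarith

/-- the state of the point `N` never changes -/
theorem sc_out (hG : Good L P pb) (C : Finset ℕ) (t : ℕ) :
    (run L P C t).Z L.N = 1 ∧ (∀ u, (run L P C t).Off u L.N = 1 ∧ (run L P C t).On u L.N = 1) ∧
      ¬ (run L P C t).stop L.N := by
  have hn : ∀ y, ¬ L.Hit C y L.N := fun y => not_hit_out C y L.N le_rfl
  induction t with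
  | zero =>
    refine ⟨rfl, fun u => ⟨rfl, rfl⟩, fun h => h⟩
  | succ t ih =>
    obtain ⟨h1, h2, h3⟩ := ih
    have hZ : stepZ L P C t (run L P C t) L.N = 1 := by
      unfold stepZ
      rw [if_neg h3, if_neg (fun h => hn t h.2), h1]
    have hO : ∀ u, stepOff L P C t (run L P C t) u L.N = 1 := by
      intro u
      unfold stepOff
      rw [if_neg (fun h => hn t h.2.2.2.1), (h2 u).1]
    have hN : ∀ u, stepOn L P C t (run L P C t) u L.N = 1 := by
      intro u
      unfold stepOn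
      rw [if_neg (fun h => hn t h.2.2.2.1), (h2 u).2]
    refine ⟨hZ, fun u => ⟨hO u, hN u⟩, ?_⟩
    rintro (h | h | ⟨u, _, _, h | h⟩)
    · exact h3 h
    · rw [hZ] at h; exact absurd hG.K1 (not_le.2 h)
    · rw [hO u] at h; linarith [hG.e10]
    · rw [hN u] at h; exact absurd hG.E41 (not_le.2 h)

theorem sc_tau_out (hG : Good L P pb) (C : Finset ℕ) : tau L P L.N C = L.N := by
  rcases tau_spec (L := L) (P := P) L.N C with h | h
  · exact h
  · exact absurd h (sc_out hG C _).2.2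

end

end GPG
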