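import Mathlib

open Filter Topology

namespace GPG

theorem sc_ge {a : ℝ} (ha : 0 < a) (c : ℝ) : ∀ᶠ n : ℕ in atTop, c ≤ (n : ℝ) ^ a :=
  ((tendsto_rpow_atTop ha).comp tendsto_natCast_atTop_atTop).eventually_ge_atTop c

theorem sc_le {a : ℝ} (ha : 0 < a) {c : ℝ} (hc : 0 < c) :
    ∀ᶠ n : ℕ in atTop, (n : ℝ) ^ (-a) ≤ c :=
  ((tendsto_rpow_neg_atTop ha).comp tendsto_natCast_atTop_atTop).eventually_le_const hc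

/-- numerical facts for large `n` -/
structure SF (η κ2 e E4 d6 : ℝ) (B0 kE k3 k1 n : ℕ) : Prop where
  n1 : 1 ≤ n
  pb2 : (n : ℝ) ^ (-(99 * η / 100)) ≤ 1 / 2
  hS0 : (1 / (1 - (n : ℝ) ^ (-(99 * η / 100)))) ^ ⌊(n : ℝ) ^ (η / 2)⌋₊ ≤
    1 + (n : ℝ) ^ (-(η / 3))
  e1le : (n : ℝ) ^ (-(η / 3)) ≤ 1
  epow : (1 + (n : ℝ) ^ (-(η / 3))) ^ (kE ^ 2 + 9 + (2 * k3) ^ 2) ≤ 2
  hK : (1 - κ2)⁻¹ ^ B0 * Real.exp (((1 - 2 * η) * Real.log n) / (1 - η / 4)) ≤ (n : ℝ) ^ (1 - η)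
  pbk : (kE : ℝ) ^ 2 * (n : ℝ) ^ (-(99 * η / 100)) / κ2 ≤ 1 / 2
  h6 : (n : ℝ) ^ (-(99 * η / 100)) * (2 * Real.log n + (n : ℝ) ^ (η / 50)) ≤ d6
  A1 : 2 * (k3 : ℝ) ^ 2 + 1 ≤ (1 - 2 * η) * Real.log n
  h8 : E4 ^ ((2 * k3) ^ 2) * (2 * (k3 : ℝ) ^ 2) * (n : ℝ) ^ (-(η / 20)) ≤ e / 8
  m1 : B0 ^ 2 + 2 * B0 * ⌊(n : ℝ) ^ (η / 20)⌋₊ + ⌊(n : ℝ) ^ (η / 2)⌋₊ / 2 ≤
    ⌊(n : ℝ) ^ (η / 2)⌋₊
  m2 : k1 < ⌊(n : ℝ) ^ (η / 20)⌋₊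
  m3 : 4 * ⌊(n : ℝ) ^ (η / 20)⌋₊ * k1 < ⌊(n : ℝ) ^ (η / 2)⌋₊ / 2
  m4 : (n : ℝ) ^ 8 * ((2 : ℝ) ^ (k1 ^ 2) * E4 ^ (k1 ^ 2 + k1) * ((n : ℝ) ^ (η / 100)) ^ k1 /
      ((⌊(n : ℝ) ^ (η / 20)⌋₊ : ℝ) - k1) ^ k1) ≤ e / 2
  m5 : (n : ℝ) ^ 2 * ((2 : ℝ) ^ ((2 * k1) ^ 2) * E4 ^ ((2 * k1) ^ 2 + 2 * k1) *
      ((n : ℝ) ^ (η / 100)) ^ k1 /
      (((⌊(n : ℝ) ^ (η / 2)⌋₊ / 2 : ℕ) : ℝ) - 4 * ⌊(n : ℝ) ^ (η / 20)⌋₊ * k1) ^ k1) ≤ e / 2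

theorem sc_S0 {η x : ℝ} (hη : 0 < η) (hx : 1 ≤ x) (h1 : x ^ (-(99 * η / 100)) ≤ 1 / 2)
    (h2 : 2 * x ^ (-(49 * η / 100)) ≤ 1 / 2) (h3 : 4 ≤ x ^ (47 * η / 300)) :
    (1 / (1 - x ^ (-(99 * η / 100)))) ^ ⌊x ^ (η / 2)⌋₊ ≤ 1 + x ^ (-(η / 3)) := by
  have hx0 : 0 < x := by linarith
  set p := x ^ (-(99 * η / 100)) with hp
  have hp0 : 0 < p := Real.rpow_pos_of_pos hx0 _
  have a1 : 1 / (1 - p) ≤ Real.exp (2 * p) := by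
    have : 1 / (1 - p) ≤ 1 + 2 * p := by
      rw [div_le_iff₀ (by linarith)]
      nlinarith
    linarith [Real.add_one_le_exp (2 * p)]
  have a2 : (1 / (1 - p)) ^ ⌊x ^ (η / 2)⌋₊ ≤ Real.exp (2 * p) ^ ⌊x ^ (η / 2)⌋₊ :=
    pow_le_pow_left₀ (by
      have : 0 < 1 - p := by linarith
      positivity) a1 _
  have a3 : Real.exp (2 * p) ^ ⌊x ^ (η / 2)⌋₊ = Real.exp (2 * p * (⌊x ^ (η / 2)⌋₊ : ℝ)) := by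
    rw [← Real.exp_nat_mul]
    congr 1
    ring
  have a4 : 2 * p * (⌊x ^ (η / 2)⌋₊ : ℝ) ≤ 2 * x ^ (-(49 * η / 100)) := by
    have h5 : (⌊x ^ (η / 2)⌋₊ : ℝ) ≤ x ^ (η / 2) :=
      Nat.floor_le (Real.rpow_nonneg hx0.le _)
    have h6 : p * x ^ (η / 2) = x ^ (-(49 * η / 100)) := by
      rw [hp, ← Real.rpow_add hx0]
      congr 1
      ring
    calc 2 * p * (⌊x ^ (η / 2)⌋₊ : ℝ) ≤ 2 * p * x ^ (η / 2) :=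
          mul_le_mul_of_nonneg_left h5 (by positivity)
      _ = 2 * (p * x ^ (η / 2)) := by ring
      _ = _ := by rw [h6]
  set y := 2 * x ^ (-(49 * η / 100)) with hy
  have hy0 : 0 < y := by
    have := Real.rpow_pos_of_pos hx0 (-(49 * η / 100))
    positivity
  have a5 : Real.exp y ≤ 1 / (1 - y) := Real.exp_bound_div_one_sub_of_interval hy0.le (by linarith)
  have a6 : 1 / (1 - y) ≤ 1 + 2 * y := by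
    rw [div_le_iff₀ (by linarith)]
    nlinarith
  have a7 : 2 * y ≤ x ^ (-(η / 3)) := by
    have h7 : x ^ (-(η / 3)) = x ^ (-(49 * η / 100)) * x ^ (47 * η / 300) := by
      rw [← Real.rpow_add hx0]
      congr 1
      ring
    rw [h7, hy]
    have := Real.rpow_pos_of_pos hx0 (-(49 * η / 100))
    nlinarith
  calc (1 / (1 - p)) ^ ⌊x ^ (η / 2)⌋₊ ≤ Real.exp (2 * p * (⌊x ^ (η / 2)⌋₊ : ℝ)) := by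
        rw [← a3]; exact a2
    _ ≤ Real.exp y := Real.exp_le_exp.mpr a4
    _ ≤ 1 + 2 * y := a5.trans a6
    _ ≤ _ := by linarith

end GPG
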