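import Pool.Agent.Helper97.GP.SCLd
import Pool.Agent.Helper97.GP.SCLb
import Pool.Agent.Helper97.GP.SCLs

/-!
# The probability that a point is stopped (block SCL)
-/

open Finset
open scoped Classical

namespace GPG

noncomputable section

/-- the parameters of the process -/
def scP (lam : ℕ → ℝ) (η E4 : ℝ) (n : ℕ) : Par :=
  ⟨lam, (n : ℝ) ^ (1 - η), (n : ℝ) ^ (-(η / 3)), E4⟩

theorem sc_good {η κ2 e E4 d6 : ℝ} {B0 kE k3 k1 n : ℕ} (sf : SF η κ2 e E4 d6 B0 kE k3 k1 n)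
    (hη0 : 0 < η) (hη : η < 1 / 10) (hE4 : 1 ≤ E4) (L : LS) (lam : ℕ → ℝ)
    (hlam : ∀ v, 0 ≤ lam v ∧ lam v ≤ (n : ℝ) ^ (-1 + η / 100)) :
    Good L (scP lam η E4 n) ((n : ℝ) ^ (-(99 * η / 100))) := by
  have hn1 : (1 : ℝ) ≤ n := by exact_mod_cast sf.n1
  have hn0 : (0 : ℝ) < n := by linarith
  refine ⟨fun v => (hlam v).1, ?_, ?_, hE4, ?_, ?_, sf.pb2⟩
  · show (1 : ℝ) ≤ (n : ℝ) ^ (1 - η)
    exact Real.one_le_rpow hn1 (by linarith)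
  · exact Real.rpow_nonneg hn0.le _
  · intro v
    show lam v * (n : ℝ) ^ (1 - η) ≤ _
    have h1 : (n : ℝ) ^ (-(99 * η / 100)) = (n : ℝ) ^ (-1 + η / 100) * (n : ℝ) ^ (1 - η) := by
      rw [← Real.rpow_add hn0]
      congr 1
      ring
    rw [h1]
    exact mul_le_mul_of_nonneg_right (hlam v).2 (Real.rpow_nonneg hn0.le _)
  · exact Real.rpow_nonneg hn0.le _

theorem sc_pow_le {a : ℝ} (ha : 1 ≤ a) {m M : ℕ} (h : m ≤ M) (hM : a ^ M ≤ 2) : a ^ m ≤ 2 :=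
  (pow_le_pow_right₀ ha h).trans hM

theorem sc_h1 {η κ κ2 e E4 d6 : ℝ} {B0 kE k3 k1 n : ℕ} (sf : SF η κ2 e E4 d6 B0 kE k3 k1 n)
    (hη0 : 0 < η) (hη : η < 1 / 10) (hE4 : 1 ≤ E4) (L : LS) (lam : ℕ → ℝ)
    (hlam : ∀ v, 0 ≤ lam v ∧ lam v ≤ (n : ℝ) ^ (-1 + η / 100))
    (hκ0 : 0 < κ) (hκ2 : 0 < κ2) (hkE : (κ / κ2) ^ kE ≤ e / (4 * (B0 + 1)))
    (v : ℕ) (hv : v < L.N) (i : Finset ℕ) (hi : i ∈ L.ls) (hvi : v ∈ i) (hpre : L.pre i)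
    (hw : ∑ z ∈ i.filter (fun z => z < v), lam z ≤ κ) :
    Ex L (scP lam η E4 n) v (fun C => if κ2 ≤ At L (scP lam η E4 n) v i C then
      (run L (scP lam η E4 n) C v).Z v else 0) ≤ e / (B0 + 1) := by
  have hG := sc_good sf hη0 hη hE4 L lam hlam
  have hn1 : (1 : ℝ) ≤ n := by exact_mod_cast sf.n1
  have hn0 : (0 : ℝ) < n := by linarith
  have hb := sf.pbk
  have he0 : 0 ≤ (n : ℝ) ^ (-(η / 3)) := Real.rpow_nonneg hn0.le _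
  have hkp : (kE : ℝ) ^ 2 * (n : ℝ) ^ (-(99 * η / 100)) ≤ κ2 := by
    rw [div_le_iff₀ hκ2] at hb
    linarith
  have h := sc_E1 hG v hv i hi hvi ⌊(n : ℝ) ^ (η / 2)⌋₊ sf.hS0 kE κ2 κ hpre hκ2 hkp hw
  set X := Ex L (scP lam η E4 n) v (fun C => if κ2 ≤ At L (scP lam η E4 n) v i C then
      (run L (scP lam η E4 n) C v).Z v else 0) with hX
  have hX0 : 0 ≤ X := Ex_nonneg hG v _ (fun C _ _ => by
    split_ifs
    · exact Z_nonneg hG C v v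
    · exact le_rfl)
  have h2 : (1 + (scP lam η E4 n).e1) ^ (kE ^ 2) ≤ 2 :=
    sc_pow_le (by show (1 : ℝ) ≤ 1 + (n : ℝ) ^ (-(η / 3)); linarith) (by omega) sf.epow
  have hkk : 0 < κ2 ^ kE := pow_pos hκ2 _
  have h3 : X * (κ2 ^ kE * (1 / 2)) ≤ 2 * κ ^ kE := by
    calc X * (κ2 ^ kE * (1 / 2)) ≤ X * (κ2 ^ kE * (1 - (kE : ℝ) ^ 2 *
          (n : ℝ) ^ (-(99 * η / 100)) / κ2)) := by
          refine mul_le_mul_of_nonneg_left (mul_le_mul_of_nonneg_left ?_ hkk.le) hX0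
          linarith
      _ ≤ _ := h
      _ ≤ 2 * κ ^ kE := mul_le_mul_of_nonneg_right h2 (pow_nonneg hκ0.le _)
  have h4 : X ≤ 4 * (κ / κ2) ^ kE := by
    rw [div_pow, mul_div_assoc', le_div_iff₀ hkk]
    linarith
  have hB : (0 : ℝ) < B0 + 1 := by positivity
  calc X ≤ 4 * (κ / κ2) ^ kE := h4
    _ ≤ 4 * (e / (4 * (B0 + 1))) := by linarith
    _ = e / (B0 + 1) := by field_simp

theorem sc_h2 {η κ2 e E4 d6 s δ3 : ℝ} {B0 kE k3 k1 n : ℕ} (sf : SF η κ2 e E4 d6 B0 kE k3 k1 n)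
    (hη0 : 0 < η) (hη : η < 1 / 10) (hE4 : 1 ≤ E4) (L : LS) (lam : ℕ → ℝ)
    (hlam : ∀ v, 0 ≤ lam v ∧ lam v ≤ (n : ℝ) ^ (-1 + η / 100))
    (hd : 2 * (δ3 + d6) ≤ e * s ^ 2)
    (hN : L.N ≤ n ^ 2) (v : ℕ) (hv : v < L.N)
    (hw3 : ∑ i ∈ L.ls.filter (fun i => v ∈ i ∧ ¬ L.pre i),
        (∑ z ∈ i.filter (fun z => z < v), lam z) ^ 3 ≤ δ3)
    (hμ : ∑ q ∈ L.Pv v, lam q.1 * lam q.2 ≤ (1 - 3 * η) * Real.log n) :
    ∑ i ∈ L.ls.filter (fun i => v ∈ i ∧ ¬ L.pre i),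
      Ex L (scP lam η E4 n) v (fun C => (run L (scP lam η E4 n) C v).Z v *
        (At L (scP lam η E4 n) v i C) ^ 2) ≤ e * s ^ 2 := by
  have hG := sc_good sf hη0 hη hE4 L lam hlam
  have hn1 : (1 : ℝ) ≤ n := by exact_mod_cast sf.n1
  have hn0 : (0 : ℝ) < n := by linarith
  have he0 : 0 ≤ (n : ℝ) ^ (-(η / 3)) := Real.rpow_nonneg hn0.le _
  have hp0 : 0 ≤ (n : ℝ) ^ (-(99 * η / 100)) := Real.rpow_nonneg hn0.le _
  have hlog : 0 ≤ Real.log n := Real.log_nonneg hn1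
  set p := (n : ℝ) ^ (-(99 * η / 100)) with hp
  have h2 : (1 + (scP lam η E4 n).e1) ^ 9 ≤ 2 :=
    sc_pow_le (by show (1 : ℝ) ≤ 1 + (n : ℝ) ^ (-(η / 3)); linarith) (by omega) sf.epow
  have hterm : ∀ i ∈ L.ls.filter (fun i => v ∈ i ∧ ¬ L.pre i),
      Ex L (scP lam η E4 n) v (fun C => (run L (scP lam η E4 n) C v).Z v *
        (At L (scP lam η E4 n) v i C) ^ 2) ≤
      2 * ((∑ z ∈ i.filter (fun z => z < v), lam z) ^ 3 +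
        p * (∑ z ∈ i.filter (fun z => z < v), lam z) ^ 2) := by
    intro i hi
    rw [mem_filter] at hi
    have h := E2 hG v hv i hi.1 hi.2.1 ⌊(n : ℝ) ^ (η / 2)⌋₊ sf.hS0
      (∑ z ∈ i.filter (fun z => z < v), lam z) hi.2.2 le_rfl
    refine h.trans (mul_le_mul_of_nonneg_right h2 ?_)
    have h0 : 0 ≤ ∑ z ∈ i.filter (fun z => z < v), lam z := sum_nonneg (fun z _ => (hlam z).1)
    exact add_nonneg (pow_nonneg h0 _) (mul_nonneg hp0 (sq_nonneg _))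
  have hsq := sc_sum_sq L lam (fun v => (hlam v).1) v
  have hrange : ∑ z ∈ range v, lam z ^ 2 ≤ (n : ℝ) ^ (η / 50) := by
    have h1 : ∀ z ∈ range v, lam z ^ 2 ≤ ((n : ℝ) ^ (-1 + η / 100)) ^ 2 := fun z _ =>
      pow_le_pow_left₀ (hlam z).1 (hlam z).2 2
    have h3 : ∑ z ∈ range v, lam z ^ 2 ≤ (v : ℝ) * ((n : ℝ) ^ (-1 + η / 100)) ^ 2 := by
      have := sum_le_card_nsmul _ _ _ h1
      rwa [card_range, nsmul_eq_mul] at this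
    have h4 : (v : ℝ) ≤ (n : ℝ) ^ (2 : ℝ) := by
      have : v ≤ n ^ 2 := by omega
      have h5 : (v : ℝ) ≤ ((n ^ 2 : ℕ) : ℝ) := by exact_mod_cast this
      rw [Real.rpow_two]
      exact_mod_cast h5
    calc ∑ z ∈ range v, lam z ^ 2 ≤ (v : ℝ) * ((n : ℝ) ^ (-1 + η / 100)) ^ 2 := h3
      _ ≤ (n : ℝ) ^ (2 : ℝ) * ((n : ℝ) ^ (-1 + η / 100)) ^ 2 :=
          mul_le_mul_of_nonneg_right h4 (sq_nonneg _)
      _ = (n : ℝ) ^ (η / 50) := by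
          rw [← Real.rpow_natCast, ← Real.rpow_mul hn0.le, ← Real.rpow_add hn0]
          congr 1
          push_cast
          ring
  have hsq2 : ∑ i ∈ L.ls.filter (fun i => v ∈ i ∧ ¬ L.pre i),
      (∑ z ∈ i.filter (fun z => z < v), lam z) ^ 2 ≤ 2 * Real.log n + (n : ℝ) ^ (η / 50) := by
    have : (1 - 3 * η) * Real.log n ≤ Real.log n := by nlinarith
    linarith
  calc _ ≤ ∑ i ∈ L.ls.filter (fun i => v ∈ i ∧ ¬ L.pre i),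
        2 * ((∑ z ∈ i.filter (fun z => z < v), lam z) ^ 3 +
        p * (∑ z ∈ i.filter (fun z => z < v), lam z) ^ 2) := sum_le_sum hterm
    _ = 2 * (∑ i ∈ L.ls.filter (fun i => v ∈ i ∧ ¬ L.pre i),
        (∑ z ∈ i.filter (fun z => z < v), lam z) ^ 3 +
        p * ∑ i ∈ L.ls.filter (fun i => v ∈ i ∧ ¬ L.pre i),
          (∑ z ∈ i.filter (fun z => z < v), lam z) ^ 2) := by
        rw [← mul_sum, sum_add_distrib, ← mul_sum]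
    _ ≤ 2 * (δ3 + d6) := by
        have := mul_le_mul_of_nonneg_left hsq2 hp0
        have h6 := sf.h6
        linarith
    _ ≤ _ := hd

theorem sc_h3 {η κ2 e E4 d6 : ℝ} {B0 kE k3 k1 n : ℕ} (sf : SF η κ2 e E4 d6 B0 kE k3 k1 n)
    (hη0 : 0 < η) (hη : η < 1 / 10) (hE4 : 1 ≤ E4) (L : LS) (lam : ℕ → ℝ)
    (hlam : ∀ v, 0 ≤ lam v ∧ lam v ≤ (n : ℝ) ^ (-1 + η / 100))
    (hk3 : 1 ≤ k3) (hk3' : ((1 - 3 * η) / (1 - 2 * η)) ^ k3 ≤ e / 8)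
    (v : ℕ) (hv : v < L.N)
    (hμ : ∑ q ∈ L.Pv v, lam q.1 * lam q.2 ≤ (1 - 3 * η) * Real.log n)
    (hξ : ∀ s < L.N, s ≠ v →
        ∑ q ∈ (L.Pv v).filter (fun q => L.Lng ⌊(n : ℝ) ^ (η / 2)⌋₊ v s q.1 ∨
            L.Lng ⌊(n : ℝ) ^ (η / 2)⌋₊ v s q.2), lam q.1 * lam q.2 ≤
          (n : ℝ) ^ (-(η / 20))) :
    Ex L (scP lam η E4 n) v (fun C => if (1 - 2 * η) * Real.log n ≤
      ∑ i ∈ L.ls.filter (fun i => v ∈ i ∧ ¬ L.pre i), At L (scP lam η E4 n) v i C then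
      (run L (scP lam η E4 n) C v).Z v else 0) ≤ e := by
  have hG := sc_good sf hη0 hη hE4 L lam hlam
  have hn1 : (1 : ℝ) ≤ n := by exact_mod_cast sf.n1
  have hn0 : (0 : ℝ) < n := by linarith
  have he0 : 0 ≤ (n : ℝ) ^ (-(η / 3)) := Real.rpow_nonneg hn0.le _
  have hlog : 0 ≤ Real.log n := Real.log_nonneg hn1
  have hA1 := sf.A1
  set A := (1 - 2 * η) * Real.log n with hA
  set μ := (1 - 3 * η) * Real.log n with hμd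
  have hk2 : (0 : ℝ) ≤ (k3 : ℝ) ^ 2 := sq_nonneg _
  have hA0 : 0 < A := by linarith
  have hAge1 : 1 ≤ A := by linarith
  have hμ0 : 0 ≤ μ := mul_nonneg (by linarith) hlog
  have hμA : μ ≤ A := by
    rw [hA, hμd]; nlinarith
  have hξ0 : 0 ≤ (n : ℝ) ^ (-(η / 20)) := Real.rpow_nonneg hn0.le _
  have h := E3 hG v hv ⌊(n : ℝ) ^ (η / 2)⌋₊ sf.hS0 k3 hk3 A μ ((n : ℝ) ^ (-(η / 20)))
    (by linarith) hξ0 hμ hξ
  set X := Ex L (scP lam η E4 n) v (fun C => if A ≤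
      ∑ i ∈ L.ls.filter (fun i => v ∈ i ∧ ¬ L.pre i), At L (scP lam η E4 n) v i C then
      (run L (scP lam η E4 n) C v).Z v else 0) with hX
  have hX0 : 0 ≤ X := Ex_nonneg hG v _ (fun C _ _ => by
    split_ifs
    · exact Z_nonneg hG C v v
    · exact le_rfl)
  have h2 : (1 + (scP lam η E4 n).e1) ^ ((2 * k3) ^ 2) ≤ 2 :=
    sc_pow_le (by show (1 : ℝ) ≤ 1 + (n : ℝ) ^ (-(η / 3)); linarith) (by omega) sf.epow
  have hAk : 0 < A ^ k3 := pow_pos hA0 _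
  have hhalf : 1 / 2 ≤ 1 - (k3 : ℝ) ^ 2 / A := by
    have : (k3 : ℝ) ^ 2 / A ≤ 1 / 2 := by
      rw [div_le_iff₀ hA0]; linarith
    linarith
  have hμk : μ ^ (k3 - 1) ≤ A ^ k3 := by
    calc μ ^ (k3 - 1) ≤ A ^ (k3 - 1) := pow_le_pow_left₀ hμ0 hμA _
      _ ≤ A ^ k3 := pow_le_pow_right₀ hAge1 (by omega)
  have hμk3 : μ ^ k3 ≤ e / 8 * A ^ k3 := by
    have h1 : μ = (1 - 3 * η) / (1 - 2 * η) * A := by
      have : (1 - 2 * η) ≠ 0 := by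
        have : 0 < 1 - 2 * η := by linarith
        exact this.ne'
      rw [hA, hμd, div_mul_eq_mul_div, eq_div_iff this]
      ring
    rw [h1, mul_pow]
    exact mul_le_mul_of_nonneg_right hk3' hAk.le
  have h8 := sf.h8
  have hc0 : 0 ≤ E4 ^ ((2 * k3) ^ 2) * (2 * (k3 : ℝ) ^ 2) * (n : ℝ) ^ (-(η / 20)) := by positivity
  have h9 : E4 ^ ((2 * k3) ^ 2) * (2 * (k3 : ℝ) ^ 2 * μ ^ (k3 - 1) * (n : ℝ) ^ (-(η / 20))) ≤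
      e / 8 * A ^ k3 := by
    calc E4 ^ ((2 * k3) ^ 2) * (2 * (k3 : ℝ) ^ 2 * μ ^ (k3 - 1) * (n : ℝ) ^ (-(η / 20)))
        = (E4 ^ ((2 * k3) ^ 2) * (2 * (k3 : ℝ) ^ 2) * (n : ℝ) ^ (-(η / 20))) * μ ^ (k3 - 1) := by
          ring
      _ ≤ (e / 8) * A ^ k3 :=
          mul_le_mul h8 hμk (pow_nonneg hμ0 _) (hc0.trans h8)
  have hrhs0 : 0 ≤ μ ^ k3 + (scP lam η E4 n).E4 ^ ((2 * k3) ^ 2) *
      (2 * (k3 : ℝ) ^ 2 * μ ^ (k3 - 1) * (n : ℝ) ^ (-(η / 20))) := by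
    have hE : 0 ≤ (scP lam η E4 n).E4 := by show 0 ≤ E4; linarith
    have := pow_nonneg hμ0 k3
    have := pow_nonneg hμ0 (k3 - 1)
    positivity
  have h3 : X * (A ^ k3 * (1 / 2)) ≤ 2 * (e / 8 * A ^ k3 + e / 8 * A ^ k3) := by
    calc X * (A ^ k3 * (1 / 2)) ≤ X * (A ^ k3 * (1 - (k3 : ℝ) ^ 2 / A)) :=
          mul_le_mul_of_nonneg_left (mul_le_mul_of_nonneg_left hhalf hAk.le) hX0
      _ ≤ _ := h
      _ ≤ 2 * (μ ^ k3 + (scP lam η E4 n).E4 ^ ((2 * k3) ^ 2) *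
          (2 * (k3 : ℝ) ^ 2 * μ ^ (k3 - 1) * (n : ℝ) ^ (-(η / 20)))) :=
          mul_le_mul_of_nonneg_right h2 hrhs0
      _ ≤ _ := by
          have : μ ^ k3 + (scP lam η E4 n).E4 ^ ((2 * k3) ^ 2) *
            (2 * (k3 : ℝ) ^ 2 * μ ^ (k3 - 1) * (n : ℝ) ^ (-(η / 20))) ≤
            e / 8 * A ^ k3 + e / 8 * A ^ k3 := add_le_add hμk3 h9
          linarith
  have h4 : X * A ^ k3 ≤ e * A ^ k3 := by linarith
  exact le_of_mul_le_mul_right h4 hAk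

theorem sc_h4 {η κ2 e E4 d6 : ℝ} {B0 kE k3 k1 n : ℕ} (sf : SF η κ2 e E4 d6 B0 kE k3 k1 n)
    (hη0 : 0 < η) (hη : η < 1 / 10) (hE4 : 1 ≤ E4) (L : LS) (lam : ℕ → ℝ)
    (hlam : ∀ v, 0 ≤ lam v ∧ lam v ≤ (n : ℝ) ^ (-1 + η / 100))
    (hN : L.N ≤ n ^ 2) (hls : L.ls.card ≤ n ^ 6)
    (hB0 : ∀ v < L.N, (L.ls.filter (fun i => L.pre i ∧ v ∈ i)).card ≤ B0)
    (v : ℕ) (hv : v < L.N)
    (hR1 : ∀ i ∈ L.ls, ∀ w < L.N, w ∉ i → ∑ y ∈ i, L.r lam w y ≤ (n : ℝ) ^ (η / 100))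
    (hR2 : ∀ u < L.N, u ≠ v →
        ∑ y ∈ (range L.N).filter (fun y => y ≠ u ∧ y ≠ v ∧ ¬ L.Coll y u v),
          L.r lam u y * L.r lam v y ≤ (n : ℝ) ^ (η / 100)) :
    Ex L (scP lam η E4 n) v (fun C => if ∃ u < L.N, u ≠ v ∧ 1 + (scP lam η E4 n).e1 <
      (run L (scP lam η E4 n) C (tau L (scP lam η E4 n) v C)).Off u v then
      (run L (scP lam η E4 n) C v).Z v else 0) ≤ e := by
  have hG := sc_good sf hη0 hη hE4 L lam hlam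
  have hn1 : (1 : ℝ) ≤ n := by exact_mod_cast sf.n1
  have hn0 : (0 : ℝ) < n := by linarith
  have he0 : 0 ≤ (n : ℝ) ^ (-(η / 3)) := Real.rpow_nonneg hn0.le _
  have hR0 : 0 ≤ (n : ℝ) ^ (η / 100) := Real.rpow_nonneg hn0.le _
  have h := sc_E4main hG v hv ⌊(n : ℝ) ^ (η / 2)⌋₊ sf.hS0 B0 k1 ⌊(n : ℝ) ^ (η / 20)⌋₊ k1
    (⌊(n : ℝ) ^ (η / 2)⌋₊ / 2) ⌊(n : ℝ) ^ (η / 2)⌋₊ sf.hS0 sf.m1 sf.m2 sf.m3 hB0
    ((n : ℝ) ^ (η / 100)) hR0 hR1 hR2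
  refine h.trans ?_
  have hC : ∀ k, Cst (scP lam η E4 n) k ≤ 2 ^ (k ^ 2) * E4 ^ (k ^ 2 + k) := by
    intro k
    unfold Cst
    show (1 + (n : ℝ) ^ (-(η / 3))) ^ (k ^ 2) * E4 ^ (k ^ 2 + k) ≤ _
    refine mul_le_mul_of_nonneg_right (pow_le_pow_left₀ (by linarith) ?_ _) (by positivity)
    linarith [sf.e1le]
  have hC0 : ∀ k, 0 ≤ Cst (scP lam η E4 n) k := by
    intro k
    unfold Cst
    show 0 ≤ (1 + (n : ℝ) ^ (-(η / 3))) ^ (k ^ 2) * E4 ^ (k ^ 2 + k)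
    positivity
  have hNr : (L.N : ℝ) ≤ (n : ℝ) ^ 2 := by exact_mod_cast hN
  have hlsr : (L.ls.card : ℝ) ≤ (n : ℝ) ^ 6 := by exact_mod_cast hls
  have hprod : (L.ls.card * L.N : ℝ) ≤ (n : ℝ) ^ 8 := by
    calc (L.ls.card * L.N : ℝ) ≤ (n : ℝ) ^ 6 * (n : ℝ) ^ 2 :=
          mul_le_mul hlsr hNr (Nat.cast_nonneg _) (by positivity)
      _ = (n : ℝ) ^ 8 := by ring
  have hm2 := sf.m2
  have hm3 := sf.m3
  have hD1 : 0 < ((⌊(n : ℝ) ^ (η / 20)⌋₊ : ℝ) - k1) := by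
    have : (k1 : ℝ) < (⌊(n : ℝ) ^ (η / 20)⌋₊ : ℝ) := by exact_mod_cast hm2
    linarith
  have hD2 : 0 < (((⌊(n : ℝ) ^ (η / 2)⌋₊ / 2 : ℕ) : ℝ) - 4 * ⌊(n : ℝ) ^ (η / 20)⌋₊ * k1) := by
    have : ((4 * ⌊(n : ℝ) ^ (η / 20)⌋₊ * k1 : ℕ) : ℝ) < ((⌊(n : ℝ) ^ (η / 2)⌋₊ / 2 : ℕ) : ℝ) := by
      exact_mod_cast hm3
    push_cast at this ⊢
    linarith
  have t1 : (L.ls.card * L.N : ℝ) * (Cst (scP lam η E4 n) k1 * ((n : ℝ) ^ (η / 100)) ^ k1 /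
      ((⌊(n : ℝ) ^ (η / 20)⌋₊ : ℝ) - k1) ^ k1) ≤ e / 2 := by
    refine le_trans ?_ sf.m4
    refine mul_le_mul hprod ?_ ?_ (by positivity)
    · refine div_le_div_of_nonneg_right ?_ (pow_pos hD1 _).le
      exact mul_le_mul_of_nonneg_right (hC k1) (pow_nonneg hR0 _)
    · exact div_nonneg (mul_nonneg (hC0 _) (pow_nonneg hR0 _)) (pow_pos hD1 _).le
  have t2 : (L.N : ℝ) * (Cst (scP lam η E4 n) (2 * k1) * ((n : ℝ) ^ (η / 100)) ^ k1 /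
      (((⌊(n : ℝ) ^ (η / 2)⌋₊ / 2 : ℕ) : ℝ) - 4 * ⌊(n : ℝ) ^ (η / 20)⌋₊ * k1) ^ k1) ≤ e / 2 := by
    refine le_trans ?_ sf.m5
    refine mul_le_mul hNr ?_ ?_ (by positivity)
    · refine div_le_div_of_nonneg_right ?_ (pow_pos hD2 _).le
      exact mul_le_mul_of_nonneg_right (hC (2 * k1)) (pow_nonneg hR0 _)
    · exact div_nonneg (mul_nonneg (hC0 _) (pow_nonneg hR0 _)) (pow_pos hD2 _).le
  linarith

end

end GPG
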