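import Pool.Agent.Helper97.GP.E3
import Pool.Agent.Helper58.GP.E2
import Pool.Agent.Helper86.GP.E1
import Pool.Agent.Helper36.GP.E4m
import Pool.Agent.Helper74.GP.E4c
import Pool.Agent.Helper9.GP.E4h
import Pool.Agent.Helper48.GP.ST

/-!
# E1 and E4main from the versions with hypotheses
-/

open Finset
open scoped Classical

namespace GPG

noncomputable section

variable {L : LS} {P : Par} {pb : ℝ}

theorem sc_E1 (hG : Good L P pb) (v : ℕ) (hv : v < L.N) (i : Finset ℕ) (hi : i ∈ L.ls)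
    (hvi : v ∈ i) (S0 : ℕ) (hS0 : (1 / (1 - pb)) ^ S0 ≤ 1 + P.e1) (k : ℕ) (κ w : ℝ)
    (hpre : L.pre i)
    (hκ : 0 < κ) (hkp : (k : ℝ) ^ 2 * pb ≤ κ)
    (hw : ∑ z ∈ i.filter (fun z => z < v), P.lam z ≤ w) :
    Ex L P v (fun C => if κ ≤ At L P v i C then (run L P C v).Z v else 0) *
      (κ ^ k * (1 - (k : ℝ) ^ 2 * pb / κ)) ≤ (1 + P.e1) ^ (k ^ 2) * w ^ k :=
  E1_of hG v hv i hi hvi S0 (fun X Y hd hX => PLU hG v hv.le X Y hd hX S0 hS0) k κ w hpre hκ hkp hw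

theorem sc_E4main (hG : Good L P pb) (v : ℕ) (hv : v < L.N) (S0 : ℕ)
    (hS0 : (1 / (1 - pb)) ^ S0 ≤ 1 + P.e1) (B0 k1 h0 k2 B Bn : ℕ)
    (hBn : (1 / (1 - pb)) ^ Bn ≤ 1 + P.e1)
    (hB : B0 ^ 2 + 2 * B0 * h0 + B ≤ Bn) (hk1 : k1 < h0) (hk2 : 4 * h0 * k2 < B)
    (hB0 : ∀ u < L.N, (L.ls.filter (fun i => L.pre i ∧ u ∈ i)).card ≤ B0) (R : ℝ)
    (hR0 : 0 ≤ R)
    (hR1 : ∀ i ∈ L.ls, ∀ w < L.N, w ∉ i → ∑ y ∈ i, L.r P.lam w y ≤ R)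
    (hR2 : ∀ u < L.N, u ≠ v →
      ∑ y ∈ (range L.N).filter (fun y => y ≠ u ∧ y ≠ v ∧ ¬ L.Coll y u v),
        L.r P.lam u y * L.r P.lam v y ≤ R) :
    Ex L P v (fun C => if ∃ u < L.N, u ≠ v ∧ 1 + P.e1 < (run L P C (tau L P v C)).Off u v
        then (run L P C v).Z v else 0) ≤
      (L.ls.card * L.N : ℝ) * (Cst P k1 * R ^ k1 / ((h0 : ℝ) - k1) ^ k1) +
      (L.N : ℝ) * (Cst P (2 * k2) * R ^ k2 / ((B : ℝ) - 4 * h0 * k2) ^ k2) :=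
  E4main_of hG v hv B0 k1 h0 k2 B Bn hBn hB hk1 hk2 hB0 R hR0
    (fun C u => Off_tau_le hG v C u)
    (fun i hi w hw hwi => E4h_of_PLX hG v (fun X hX => PLX hG v hv.le X hX S0 hS0) i hi w hwi k1
      h0 hk1.le R (hR1 i hi w hw hwi))
    (fun u hu huv => E4c hG v hv S0 hS0 u hu huv k2 h0 B hk2.le R (hR2 u hu huv))

end

end GPG
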